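import Pool.Agent.NNr.R15_1_1_4.D0
import Pool.Agent.NNe.Slots

set_option linter.all false
set_option maxRecDepth 1000000
namespace Pool.Agent.NNr.R15_1_1_4

open Pool.Agent.NNe

def ti0_1 : tileCk (nat_lit 58) (nat_lit 2) (nat_lit 1) (nat_lit 1) (nat_lit 459) (nat_lit 15) (nat_lit 38) ZL0_1 CL0 = true := by decide +kernel
def zl0_1 : zlOK (nat_lit 459) ZL0_1 = true := by decide +kernel
def ti0_2 : tileCk (nat_lit 58) (nat_lit 2) (nat_lit 1) (nat_lit 1) (nat_lit 460) (nat_lit 15) (nat_lit 38) ZL0_2 CL0 = true := by decide +kernel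
def zl0_2 : zlOK (nat_lit 460) ZL0_2 = true := by decide +kernel
def tc0_0 : tiCov (nat_lit 1) (nat_lit 0) ZZ0 C0_0 = true := by decide +kernel
def tc0_1 : tiCov (nat_lit 1) (nat_lit 1) ZZ0 C0_1 = true := by decide +kernel
def tc0_2 : tiCov (nat_lit 1) (nat_lit 2) ZZ0 C0_2 = true := by decide +kernel
def tc0_3 : tiCov (nat_lit 1) (nat_lit 3) ZZ0 C0_3 = true := by decide +kernel
def tc0_4 : tiCov (nat_lit 1) (nat_lit 4) ZZ0 C0_4 = true := by decide +kernel
def tc0_5 : tiCov (nat_lit 1) (nat_lit 5) ZZ0 C0_5 = true := by decide +kernel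
def tc0_6 : tiCov (nat_lit 1) (nat_lit 6) ZZ0 C0_6 = true := by decide +kernel
def tc0_7 : tiCov (nat_lit 1) (nat_lit 7) ZZ0 C0_7 = true := by decide +kernel
def tc0_8 : tiCov (nat_lit 1) (nat_lit 8) ZZ0 C0_8 = true := by decide +kernel
def tc0_9 : tiCov (nat_lit 1) (nat_lit 9) ZZ0 C0_9 = true := by decide +kernel
def tc0_10 : tiCov (nat_lit 1) (nat_lit 10) ZZ0 C0_10 = true := by decide +kernel
def tc0_11 : tiCov (nat_lit 1) (nat_lit 11) ZZ0 C0_11 = true := by decide +kernel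
def tc0_12 : tiCov (nat_lit 1) (nat_lit 12) ZZ0 C0_12 = true := by decide +kernel
def tc0_13 : tiCov (nat_lit 1) (nat_lit 13) ZZ0 C0_13 = true := by decide +kernel
def tc0_14 : tiCov (nat_lit 1) (nat_lit 14) ZZ0 C0_14 = true := by decide +kernel
def tc0_15 : tiCov (nat_lit 1) (nat_lit 15) ZZ0 C0_15 = true := by decide +kernel
def tc0_16 : tiCov (nat_lit 1) (nat_lit 16) ZZ0 C0_16 = true := by decide +kernel
def tc0_17 : tiCov (nat_lit 1) (nat_lit 17) ZZ0 C0_17 = true := by decide +kernel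
def tc0_18 : tiCov (nat_lit 1) (nat_lit 18) ZZ0 C0_18 = true := by decide +kernel
def tc0_19 : tiCov (nat_lit 1) (nat_lit 19) ZZ0 C0_19 = true := by decide +kernel
def tc0_20 : tiCov (nat_lit 1) (nat_lit 20) ZZ0 C0_20 = true := by decide +kernel
def tc0_21 : tiCov (nat_lit 1) (nat_lit 21) ZZ0 C0_21 = true := by decide +kernel
def tc0_22 : tiCov (nat_lit 1) (nat_lit 22) ZZ0 C0_22 = true := by decide +kernel
def tc0_23 : tiCov (nat_lit 1) (nat_lit 23) ZZ0 C0_23 = true := by decide +kernel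
def tc0_24 : tiCov (nat_lit 1) (nat_lit 24) ZZ0 C0_24 = true := by decide +kernel
def tc0_25 : tiCov (nat_lit 1) (nat_lit 25) ZZ0 C0_25 = true := by decide +kernel
def tc0_26 : tiCov (nat_lit 1) (nat_lit 26) ZZ0 C0_26 = true := by decide +kernel
def tc0_27 : tiCov (nat_lit 1) (nat_lit 27) ZZ0 C0_27 = true := by decide +kernel
def tc0_28 : tiCov (nat_lit 1) (nat_lit 28) ZZ0 C0_28 = true := by decide +kernel
def tc0_29 : tiCov (nat_lit 1) (nat_lit 29) ZZ0 C0_29 = true := by decide +kernel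
def tc0_30 : tiCov (nat_lit 1) (nat_lit 30) ZZ0 C0_30 = true := by decide +kernel
def tc0_31 : tiCov (nat_lit 1) (nat_lit 31) ZZ0 C0_31 = true := by decide +kernel
def tc0_32 : tiCov (nat_lit 1) (nat_lit 32) ZZ0 C0_32 = true := by decide +kernel
def tc0_33 : tiCov (nat_lit 1) (nat_lit 33) ZZ0 C0_33 = true := by decide +kernel
def tc0_34 : tiCov (nat_lit 1) (nat_lit 34) ZZ0 C0_34 = true := by decide +kernel

end Pool.Agent.NNr.R15_1_1_4
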