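import Pool.Agent.NNe.Chk

set_option linter.all false
set_option maxRecDepth 1000000
namespace Pool.Agent.NNr.R15_1_1_4

open Pool.Agent.NNe

noncomputable def C2_0 : Cd := (Cd.mk (nat_lit 0) (nat_lit 3) (nat_lit 768) (nat_lit 0) (nat_lit 0) (nat_lit 0) (nat_lit 0) Sl.nil)
noncomputable def SI2_1 : Nat := (nat_lit 0x300c0300c0200802008010040100401004010040000000)
noncomputable def SW2_1 : Nat := (nat_lit 0x28012008003801800a0040018048022010007803801a00c0058008002000)
noncomputable def RV2_1 : Nat := (nat_lit 0x19a00319400618e00618800319401118e01418801118200319a00b19401918e01c18801919401d18e02018801d18200b19a00019400018e000)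
noncomputable def CO2_1 : Nat := (nat_lit 0x2948d02948a02948702948402558a025587025584025581016a0d016a0a016a07016a0401664a01664701664401664101100d01100a011007)
noncomputable def C2_1 : Cd := (Cd.mk (nat_lit 19) (nat_lit 6) (nat_lit 576) SI2_1 SW2_1 RV2_1 CO2_1 (Sl.cons (Sd.mk (nat_lit 4) (nat_lit 4) (nat_lit 0) (nat_lit 3) (Sb.cons (nat_lit 4) (nat_lit 0) (nat_lit 3) Sb.nil) Bl.nil) (Sl.cons (Sd.mk (nat_lit 5) (nat_lit 4) (nat_lit 3) (nat_lit 8) (Sb.cons (nat_lit 8) (nat_lit 0) (nat_lit 8) Sb.nil) Bl.nil) (Sl.cons (Sd.mk (nat_lit 9) (nat_lit 8) (nat_lit 11) (nat_lit 4) (Sb.cons (nat_lit 4) (nat_lit 0) (nat_lit 4) Sb.nil) Bl.nil) (Sl.cons (Sd.mk (nat_lit 10) (nat_lit 8) (nat_lit 15) (nat_lit 4) (Sb.cons (nat_lit 4) (nat_lit 0) (nat_lit 4) Sb.nil) Bl.nil) Sl.nil)))))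
noncomputable def C2_2 : Cd := (Cd.mk (nat_lit 0) (nat_lit 9) (nat_lit 384) (nat_lit 0) (nat_lit 0) (nat_lit 0) (nat_lit 0) Sl.nil)
noncomputable def C2_3 : Cd := (Cd.mk (nat_lit 0) (nat_lit 12) (nat_lit 192) (nat_lit 0) (nat_lit 0) (nat_lit 0) (nat_lit 0) Sl.nil)
noncomputable def SI2_4 : Nat := (nat_lit 0x5014050140501405014040100401004010040100300c0300c0300c0300c020080200802008010040100401004010040000000)
noncomputable def SW2_4 : Nat := (nat_lit 0x1800b805802a00a004802000e01400980480220060028010006028013809804a02000f807803a01000780380040010000090046022010807003601a00c803401800b)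
noncomputable def RV2_4 : Nat := (nat_lit 0x19a00419400718e00718800419a00719400a18e00a18800719401218e01518801218200419401518e01818801518200719a00c19401a18e01d18801a19401e18e02118801e18200c19a00119400118e00119400318e00318800019a00f19402118e02418802119402518e02818802518200f99400e98e00e98800b)
noncomputable def CO2_4 : Nat := (nat_lit 0x2948d02948a02948702948402888d02888a02888702888402558a02558702558402558102498a024987024984024981016a0d016a0a016a07016a0401664a01664701664401664101100d01100a01100701004a01004701004400aa0d00aa0a00aa0700aa0400a64a00a64700a64400a64100110a001107001104)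
noncomputable def C2_4 : Cd := (Cd.mk (nat_lit 41) (nat_lit 6) (nat_lit 561) SI2_4 SW2_4 RV2_4 CO2_4 (Sl.cons (Sd.mk (nat_lit 0) (nat_lit 0) (nat_lit 0) (nat_lit 3) (Sb.cons (nat_lit 4) (nat_lit 0) (nat_lit 3) Sb.nil) Bl.nil) (Sl.cons (Sd.mk (nat_lit 2) (nat_lit 0) (nat_lit 3) (nat_lit 8) (Sb.cons (nat_lit 8) (nat_lit 0) (nat_lit 8) Sb.nil) Bl.nil) (Sl.cons (Sd.mk (nat_lit 4) (nat_lit 4) (nat_lit 11) (nat_lit 6) (Sb.cons (nat_lit 0) (nat_lit 0) (nat_lit 3) (Sb.cons (nat_lit 4) (nat_lit 3) (nat_lit 3) Sb.nil)) Bl.nil) (Sl.cons (Sd.mk (nat_lit 5) (nat_lit 4) (nat_lit 17) (nat_lit 8) (Sb.cons (nat_lit 8) (nat_lit 0) (nat_lit 8) Sb.nil) Bl.nil) (Sl.cons (Sd.mk (nat_lit 9) (nat_lit 8) (nat_lit 25) (nat_lit 8) (Sb.cons (nat_lit 0) (nat_lit 0) (nat_lit 4) (Sb.cons (nat_lit 4) (nat_lit 4) (nat_lit 4) Sb.nil)) Bl.nil) (Sl.cons (Sd.mk (nat_lit 10) (nat_lit 8) (nat_lit 33) (nat_lit 8) (Sb.cons (nat_lit 0) (nat_lit 0) (nat_lit 4) (Sb.cons (nat_lit 4) (nat_lit 4) (nat_lit 4) Sb.nil)) Bl.nil) Sl.nil)))))))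
noncomputable def C2_5 : Cd := (Cd.mk (nat_lit 0) (nat_lit 9) (nat_lit 369) (nat_lit 0) (nat_lit 0) (nat_lit 0) (nat_lit 0) Sl.nil)
noncomputable def C2_6 : Cd := (Cd.mk (nat_lit 0) (nat_lit 12) (nat_lit 177) (nat_lit 0) (nat_lit 0) (nat_lit 0) (nat_lit 0) Sl.nil)
noncomputable def SI2_7 : Nat := (nat_lit 0x14050140501405014050100401004010040100400c0300c0300c0300c0300802008020080200401004010040100401000000000000000)
noncomputable def SW2_7 : Nat := (nat_lit 0xd8068032018006803001600a00b805802a014004802000e00601580a805202801180880420200098048022005002000c04e026012809003e01e00e807002000f0070008002000)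
noncomputable def RV2_7 : Nat := (nat_lit 0x19a00519400818e00818800519a00819400b18e00b18800819401318e01618801318200519401618e01918801618200819a00d19401b18e01e18801b19401f18e02218801f18200d19a00219400218e00219400418e00418800119a01019402218e02518802219402618e02918802618201099400f98e00f98800c98e01198800e982000)
noncomputable def CO2_7 : Nat := (nat_lit 0x2948d02948a02948702948402888d02888a02888702888402558a02558702558402558102498a024987024984024981016a0d016a0a016a07016a0401664a01664701664401664101100d01100a01100701004a01004701004400aa0d00aa0a00aa0700aa0400a64a00a64700a64400a64100110a001107001104000147000144000141)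
noncomputable def C2_7 : Cd := (Cd.mk (nat_lit 44) (nat_lit 6) (nat_lit 546) SI2_7 SW2_7 RV2_7 CO2_7 (Sl.cons (Sd.mk (nat_lit 0) (nat_lit 0) (nat_lit 0) (nat_lit 6) (Sb.cons (nat_lit 0) (nat_lit 0) (nat_lit 3) (Sb.cons (nat_lit 4) (nat_lit 3) (nat_lit 3) Sb.nil)) Bl.nil) (Sl.cons (Sd.mk (nat_lit 2) (nat_lit 0) (nat_lit 6) (nat_lit 8) (Sb.cons (nat_lit 8) (nat_lit 0) (nat_lit 8) Sb.nil) Bl.nil) (Sl.cons (Sd.mk (nat_lit 4) (nat_lit 4) (nat_lit 14) (nat_lit 6) (Sb.cons (nat_lit 0) (nat_lit 0) (nat_lit 3) (Sb.cons (nat_lit 4) (nat_lit 3) (nat_lit 3) Sb.nil)) Bl.nil) (Sl.cons (Sd.mk (nat_lit 5) (nat_lit 4) (nat_lit 20) (nat_lit 8) (Sb.cons (nat_lit 8) (nat_lit 0) (nat_lit 8) Sb.nil) Bl.nil) (Sl.cons (Sd.mk (nat_lit 9) (nat_lit 8) (nat_lit 28) (nat_lit 8) (Sb.cons (nat_lit 0) (nat_lit 0) (nat_lit 4) (Sb.cons (nat_lit 4) (nat_lit 4) (nat_lit 4) Sb.nil)) Bl.nil) (Sl.cons (Sd.mk (nat_lit 10) (nat_lit 8) (nat_lit 36) (nat_lit 8) (Sb.cons (nat_lit 0) (nat_lit 0) (nat_lit 4) (Sb.cons (nat_lit 4) (nat_lit 4) (nat_lit 4) Sb.nil)) Bl.nil) Sl.nil)))))))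
noncomputable def C2_8 : Cd := (Cd.mk (nat_lit 0) (nat_lit 9) (nat_lit 354) (nat_lit 0) (nat_lit 0) (nat_lit 0) (nat_lit 0) Sl.nil)
noncomputable def C2_9 : Cd := (Cd.mk (nat_lit 0) (nat_lit 12) (nat_lit 162) (nat_lit 0) (nat_lit 0) (nat_lit 0) (nat_lit 0) Sl.nil)
noncomputable def SI2_10 : Nat := (nat_lit 0x5014050140501405014040100401004010040100300c0300c0300c0300c020080200401004010040100401000000000000000)
noncomputable def SW2_10 : Nat := (nat_lit 0x1800b805802a00d006002c0140140098048022009004001c00c028013809804a02000f807803a005002000c048023011008403801b00d006402000f0070008002000)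
noncomputable def RV2_10 : Nat := (nat_lit 0x19a00619400918e00918800619a00919400c18e00c18800919401418e01718801418200619401718e01a18801718200919a00e19401c18e01f18801c19402018e02318802018200e19400518e00518800219a01119402318e02618802319402718e02a18802718201199401098e01098800d98e01298800f982001)
noncomputable def CO2_10 : Nat := (nat_lit 0x2948d02948a02948702948402888d02888a02888702888402558a02558702558402558102498a024987024984024981016a0d016a0a016a07016a0401664a01664701664401664101004a01004701004400aa0d00aa0a00aa0700aa0400a64a00a64700a64400a64100110a001107001104000147000144000141)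
noncomputable def C2_10 : Cd := (Cd.mk (nat_lit 41) (nat_lit 6) (nat_lit 531) SI2_10 SW2_10 RV2_10 CO2_10 (Sl.cons (Sd.mk (nat_lit 0) (nat_lit 0) (nat_lit 0) (nat_lit 6) (Sb.cons (nat_lit 0) (nat_lit 0) (nat_lit 3) (Sb.cons (nat_lit 4) (nat_lit 3) (nat_lit 3) Sb.nil)) Bl.nil) (Sl.cons (Sd.mk (nat_lit 2) (nat_lit 0) (nat_lit 6) (nat_lit 8) (Sb.cons (nat_lit 8) (nat_lit 0) (nat_lit 8) Sb.nil) Bl.nil) (Sl.cons (Sd.mk (nat_lit 4) (nat_lit 4) (nat_lit 14) (nat_lit 3) (Sb.cons (nat_lit 0) (nat_lit 0) (nat_lit 3) Sb.nil) Bl.nil) (Sl.cons (Sd.mk (nat_lit 5) (nat_lit 4) (nat_lit 17) (nat_lit 8) (Sb.cons (nat_lit 8) (nat_lit 0) (nat_lit 8) Sb.nil) Bl.nil) (Sl.cons (Sd.mk (nat_lit 9) (nat_lit 8) (nat_lit 25) (nat_lit 8) (Sb.cons (nat_lit 0) (nat_lit 0) (nat_lit 4) (Sb.cons (nat_lit 4) (nat_lit 4) (nat_lit 4) Sb.nil)) Bl.nil) (Sl.cons (Sd.mk (nat_lit 10) (nat_lit 8) (nat_lit 33) (nat_lit 8) (Sb.cons (nat_lit 0) (nat_lit 0) (nat_lit 4) (Sb.cons (nat_lit 4) (nat_lit 4) (nat_lit 4) Sb.nil)) Bl.nil) Sl.nil)))))))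
noncomputable def C2_11 : Cd := (Cd.mk (nat_lit 0) (nat_lit 9) (nat_lit 339) (nat_lit 0) (nat_lit 0) (nat_lit 0) (nat_lit 0) Sl.nil)
noncomputable def C2_12 : Cd := (Cd.mk (nat_lit 0) (nat_lit 12) (nat_lit 147) (nat_lit 0) (nat_lit 0) (nat_lit 0) (nat_lit 0) Sl.nil)
noncomputable def SI2_13 : Nat := (nat_lit 0x300c0300c0200802008010040100401004010040000000)
noncomputable def SW2_13 : Nat := (nat_lit 0x28012008003801800a0040018048022010007803801a00c0058008002000)
noncomputable def RV2_13 : Nat := (nat_lit 0x19a00a19400d18e00d18800a19401818e01b18801818200a19a01219402418e02718802419402818e02b18802818201298e013988010982002)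
noncomputable def CO2_13 : Nat := (nat_lit 0x2888d02888a02888702888402498a02498702498402498100aa0d00aa0a00aa0700aa0400a64a00a64700a64400a641000147000144000141)
noncomputable def C2_13 : Cd := (Cd.mk (nat_lit 19) (nat_lit 6) (nat_lit 516) SI2_13 SW2_13 RV2_13 CO2_13 (Sl.cons (Sd.mk (nat_lit 0) (nat_lit 0) (nat_lit 0) (nat_lit 3) (Sb.cons (nat_lit 0) (nat_lit 0) (nat_lit 3) Sb.nil) Bl.nil) (Sl.cons (Sd.mk (nat_lit 2) (nat_lit 0) (nat_lit 3) (nat_lit 8) (Sb.cons (nat_lit 8) (nat_lit 0) (nat_lit 8) Sb.nil) Bl.nil) (Sl.cons (Sd.mk (nat_lit 9) (nat_lit 8) (nat_lit 11) (nat_lit 4) (Sb.cons (nat_lit 0) (nat_lit 0) (nat_lit 4) Sb.nil) Bl.nil) (Sl.cons (Sd.mk (nat_lit 10) (nat_lit 8) (nat_lit 15) (nat_lit 4) (Sb.cons (nat_lit 0) (nat_lit 0) (nat_lit 4) Sb.nil) Bl.nil) Sl.nil)))))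
noncomputable def C2_14 : Cd := (Cd.mk (nat_lit 0) (nat_lit 9) (nat_lit 324) (nat_lit 0) (nat_lit 0) (nat_lit 0) (nat_lit 0) Sl.nil)
noncomputable def C2_15 : Cd := (Cd.mk (nat_lit 0) (nat_lit 12) (nat_lit 132) (nat_lit 0) (nat_lit 0) (nat_lit 0) (nat_lit 0) Sl.nil)
noncomputable def C2_16 : Cd := (Cd.mk (nat_lit 0) (nat_lit 9) (nat_lit 309) (nat_lit 0) (nat_lit 0) (nat_lit 0) (nat_lit 0) Sl.nil)
noncomputable def C2_17 : Cd := (Cd.mk (nat_lit 0) (nat_lit 12) (nat_lit 117) (nat_lit 0) (nat_lit 0) (nat_lit 0) (nat_lit 0) Sl.nil)
noncomputable def C2_18 : Cd := (Cd.mk (nat_lit 0) (nat_lit 9) (nat_lit 294) (nat_lit 0) (nat_lit 0) (nat_lit 0) (nat_lit 0) Sl.nil)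
noncomputable def C2_19 : Cd := (Cd.mk (nat_lit 0) (nat_lit 12) (nat_lit 102) (nat_lit 0) (nat_lit 0) (nat_lit 0) (nat_lit 0) Sl.nil)
noncomputable def C2_20 : Cd := (Cd.mk (nat_lit 0) (nat_lit 9) (nat_lit 279) (nat_lit 0) (nat_lit 0) (nat_lit 0) (nat_lit 0) Sl.nil)
noncomputable def C2_21 : Cd := (Cd.mk (nat_lit 0) (nat_lit 12) (nat_lit 87) (nat_lit 0) (nat_lit 0) (nat_lit 0) (nat_lit 0) Sl.nil)
noncomputable def C2_22 : Cd := (Cd.mk (nat_lit 0) (nat_lit 9) (nat_lit 264) (nat_lit 0) (nat_lit 0) (nat_lit 0) (nat_lit 0) Sl.nil)
noncomputable def C2_23 : Cd := (Cd.mk (nat_lit 0) (nat_lit 12) (nat_lit 72) (nat_lit 0) (nat_lit 0) (nat_lit 0) (nat_lit 0) Sl.nil)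
noncomputable def C2_24 : Cd := (Cd.mk (nat_lit 0) (nat_lit 12) (nat_lit 57) (nat_lit 0) (nat_lit 0) (nat_lit 0) (nat_lit 0) Sl.nil)
noncomputable def C2_25 : Cd := (Cd.mk (nat_lit 0) (nat_lit 12) (nat_lit 42) (nat_lit 0) (nat_lit 0) (nat_lit 0) (nat_lit 0) Sl.nil)
noncomputable def C2_26 : Cd := (Cd.mk (nat_lit 0) (nat_lit 12) (nat_lit 27) (nat_lit 0) (nat_lit 0) (nat_lit 0) (nat_lit 0) Sl.nil)
noncomputable def C2_27 : Cd := (Cd.mk (nat_lit 0) (nat_lit 12) (nat_lit 12) (nat_lit 0) (nat_lit 0) (nat_lit 0) (nat_lit 0) Sl.nil)
noncomputable def C2_28 : Cd := (Cd.mk (nat_lit 0) (nat_lit 4) (nat_lit 4384) (nat_lit 0) (nat_lit 0) (nat_lit 0) (nat_lit 0) Sl.nil)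
noncomputable def C2_29 : Cd := (Cd.mk (nat_lit 0) (nat_lit 7) (nat_lit 4192) (nat_lit 0) (nat_lit 0) (nat_lit 0) (nat_lit 0) Sl.nil)
noncomputable def C2_30 : Cd := (Cd.mk (nat_lit 0) (nat_lit 4) (nat_lit 4369) (nat_lit 0) (nat_lit 0) (nat_lit 0) (nat_lit 0) Sl.nil)
noncomputable def C2_31 : Cd := (Cd.mk (nat_lit 0) (nat_lit 7) (nat_lit 4177) (nat_lit 0) (nat_lit 0) (nat_lit 0) (nat_lit 0) Sl.nil)
noncomputable def C2_32 : Cd := (Cd.mk (nat_lit 0) (nat_lit 4) (nat_lit 4354) (nat_lit 0) (nat_lit 0) (nat_lit 0) (nat_lit 0) Sl.nil)
noncomputable def C2_33 : Cd := (Cd.mk (nat_lit 0) (nat_lit 7) (nat_lit 4162) (nat_lit 0) (nat_lit 0) (nat_lit 0) (nat_lit 0) Sl.nil)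
noncomputable def C2_34 : Cd := (Cd.mk (nat_lit 0) (nat_lit 7) (nat_lit 4147) (nat_lit 0) (nat_lit 0) (nat_lit 0) (nat_lit 0) Sl.nil)
noncomputable def C2_35 : Cd := (Cd.mk (nat_lit 0) (nat_lit 7) (nat_lit 4132) (nat_lit 0) (nat_lit 0) (nat_lit 0) (nat_lit 0) Sl.nil)
noncomputable def C2_36 : Cd := (Cd.mk (nat_lit 0) (nat_lit 7) (nat_lit 4117) (nat_lit 0) (nat_lit 0) (nat_lit 0) (nat_lit 0) Sl.nil)
noncomputable def C2_37 : Cd := (Cd.mk (nat_lit 0) (nat_lit 7) (nat_lit 4102) (nat_lit 0) (nat_lit 0) (nat_lit 0) (nat_lit 0) Sl.nil)
noncomputable def CL2 : Cl := (Cl.cons C2_0 (Cl.cons C2_1 (Cl.cons C2_2 (Cl.cons C2_3 (Cl.cons C2_4 (Cl.cons C2_5 (Cl.cons C2_6 (Cl.cons C2_7 (Cl.cons C2_8 (Cl.cons C2_9 (Cl.cons C2_10 (Cl.cons C2_11 (Cl.cons C2_12 (Cl.cons C2_13 (Cl.cons C2_14 (Cl.cons C2_15 (Cl.cons C2_16 (Cl.cons C2_17 (Cl.cons C2_18 (Cl.cons C2_19 (Cl.cons C2_20 (Cl.cons C2_21 (Cl.cons C2_22 (Cl.cons C2_23 (Cl.cons C2_24 (Cl.cons C2_25 (Cl.cons C2_26 (Cl.cons C2_27 (Cl.cons C2_28 (Cl.cons C2_29 (Cl.cons C2_30 (Cl.cons C2_31 (Cl.cons C2_32 (Cl.cons C2_33 (Cl.cons C2_34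 (Cl.cons C2_35 (Cl.cons C2_36 (Cl.cons C2_37 Cl.nil))))))))))))))))))))))))))))))))))))))
noncomputable def AL2_0 : Nat := (nat_lit 0)
noncomputable def A42_0 : Nat := (nat_lit 0)
noncomputable def IX2_0 : Nat := (nat_lit 0)
noncomputable def OL2_0 : Nat := (nat_lit 0)
noncomputable def AL2_1 : Nat := (nat_lit 0x7ff800000007ffffffff800aadb)
noncomputable def A42_1 : Nat := (nat_lit 0x2a8000000002a82a82a8000049)
noncomputable def IX2_1 : Nat := (nat_lit 0x1200000000000000000000000011000000000000000000000000100000000000000000000000000f0000000000000000000000000000000000000000000000000000000000000000000000000000000000000000000000000000000000000000000000000000000000000000000000000000000000000000000000000000000000000000000000000000000000000000000000000000000000000000000000000000000000000000000000000000000000000000000000000000000000000000000000000000000000000000000000000000000000000000000000000000000000000000000000000000000000000000000000000000000000000000000000000000000000000000000000000000000000000000000000000000000000000e0000000000000000000000000d00000000000000000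00000000c0000000000000000000000000b00000000000000000000000000000000000000000000000000000000000000000000000000000a000000000000000000000000090000000000000000000000000800000000000000000000000007000000000000000000000000000000000000000000000000000000000000000000000000000006000000000000000000000000050000000000000000000000000400000000000000000000000003000000000000000000000000000000000000000000000000000000000000000000000000000000000000000000000000000000000000000000000000000000000000000000000000000000000000000000000000000000000000000000000000000000000000000000000000000000000000000000000000000000000000000000000000000000002000000000000000000000000000000000000001000000000000000000000000000000000000000)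
noncomputable def OL2_1 : Nat := (nat_lit 0x6500c6018402f8039006e00d4019802d005600a40138021003e007400d800600060000)
noncomputable def AL2_2 : Nat := (nat_lit 0)
noncomputable def A42_2 : Nat := (nat_lit 0)
noncomputable def IX2_2 : Nat := (nat_lit 0)
noncomputable def OL2_2 : Nat := (nat_lit 0)
noncomputable def AL2_3 : Nat := (nat_lit 0)
noncomputable def A42_3 : Nat := (nat_lit 0)
noncomputable def IX2_3 : Nat := (nat_lit 0)
noncomputable def OL2_3 : Nat := (nat_lit 0)
noncomputable def AL2_4 : Nat := (nat_lit 0x1fffffe00000001fffffffffffe0000aadb0556dffffff800aadb)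
noncomputable def A42_4 : Nat := (nat_lit 0xaa0aa000000000aa0aa0aa0aa000000490002482a82a8000049)
noncomputable def IX2_4 : Nat := (nat_lit 0x28000000000000000000000000270000000000000000000000002600000000000000000000000025000000000000000000000000000000000000000000000000000000000000000000000000000024000000000000000000000000230000000000000000000000002200000000000000000000000021000000000000000000000000000000000000000000000000000000000000000000000000000000000000000000000000000000000000000000000000000000000000000000000000000000000000000000000000000000000000000000000000000000000000000000000000000000000000000000000000000000000000000000000000000000000000000000000000000000000000000000000000000000000000000000000000000000000000000000000000000000000000000000000000000000000000000000000000000000000000000000000000000000000000000000000000000000000000000000000000000000000000200000000000000000000000001f0000000000000000000000001e0000000000000000000000001d00000000000000000000000000000000000000000000000000000000000000000000000000001c0000000000000000000000001b00000000000000000000000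01a0000000000000000000000001900000000000000000000000000000000000000000000000000000000000000000000000000001800000000000000000000000017000000000000000000000000160000000000000000000000001500000000000000000000000000000000000000000000000000000000000000000000000000001400000000000000000000000013000000000000000000000000120000000000000000000000001100000000000000000000000000000000000000000000000000000000000000000000000000000000000000000000000000000000000000000000000000000000000000000000000000000000000000000000000000000000000000000000000000000000000000000000000000000000000000000000000000000000000000000000000000000000000000000000000000000000000000000000000000000000000000000000000000000000000001000000000000000000000000000000000000000f00000000000000000000000000000000000000e00000000000000000000000000000000000000000000000000000000000000000000000000000000000000000000000000000000000000000000000000000000000000000000000000000000000000000000000000000000000000000000000000d00000000000000000000000000000000000000c00000000000000000000000000000000000000b0000000000000000000000000000000000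0000000000000000000000000000000000000000000a000000000000000000000000090000000000000000000000000800000000000000000000000007000000000000000000000000000000000000000000000000000000000000000000000000000006000000000000000000000000050000000000000000000000000400000000000000000000000003000000000000000000000000000000000000000000000000000000000000000000000000000000000000000000000000000000000000000000000000000000000000000000000000000000000000000000000000000000000000000000000000000000000000000000000000000000000000000000000000000000000000000000000000000000002000000000000000000000000000000000000001000000000000000000000000000000000000000)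
noncomputable def OL2_4 : Nat := (nat_lit 0x32c06480c7018a02fc05e80bb0172024c048808f011a021c0428083010201ec03c807700ea01bc036806b00d201380258048007200d8019802d005600a40138021003e007400d800600060000)
noncomputable def AL2_5 : Nat := (nat_lit 0)
noncomputable def A42_5 : Nat := (nat_lit 0)
noncomputable def IX2_5 : Nat := (nat_lit 0)
noncomputable def OL2_5 : Nat := (nat_lit 0)
noncomputable def AL2_6 : Nat := (nat_lit 0)
noncomputable def A42_6 : Nat := (nat_lit 0)
noncomputable def IX2_6 : Nat := (nat_lit 0)
noncomputable def OL2_6 : Nat := (nat_lit 0)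
noncomputable def AL2_7 : Nat := (nat_lit 0xffffff00000000ffffffffffff0000556d82ab6ffffffc000155b60aadb)
noncomputable def A42_7 : Nat := (nat_lit 0x5505500000000055055055055000000248001241541540000009200049)
noncomputable def IX2_7 : Nat := (nat_lit 0x2b0000000000000000000000002a000000000000000000000000290000000000000000000000002800000000000000000000000000000000000000000000000000000000000000000000000000002700000000000000000000000026000000000000000000000000250000000000000000000000002400000000000000000000000000000000000000000000000000000000000000000000000000000000000000000000000000000000000000000000000000000000000000000000000000000000000000000000000000000000000000000000000000000000000000000000000000000000000000000000000000000000000000000000000000000000000000000000000000000000000000000000000000000000000000000000000000000000000000000000000000000000000000000000000000000000000000000000000000000000000000000000000000000000000000000000000000000000000000000000000000000000000023000000000000000000000000220000000000000000000000002100000000000000000000000020000000000000000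00000000000000000000000000000000000000000000000000000000000001f0000000000000000000000001e0000000000000000000000001d0000000000000000000000001c00000000000000000000000000000000000000000000000000000000000000000000000000001b0000000000000000000000001a0000000000000000000000001900000000000000000000000018000000000000000000000000000000000000000000000000000000000000000000000000000017000000000000000000000000160000000000000000000000001500000000000000000000000014000000000000000000000000000000000000000000000000000000000000000000000000000000000000000000000000000000000000000000000000000000000000000000000000000000000000000000000000000000000000000000000000000000000000000000000000000000000000000000000000000000000000000000000000000000000000000000000000000000000000000000000000000000000000000000000000000000000000013000000000000000000000000000000000000012000000000000000000000000000000000000011000000000000000000000000000000000000000000000000000000000000000000000000000000000000000000000000000000000000000000000000000000000000000000000000000000000000000000000000000000000000000000000000010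00000000000000000000000000000000000000f00000000000000000000000000000000000000e00000000000000000000000000000000000000000000000000000000000000000000000000000d0000000000000000000000000c0000000000000000000000000b0000000000000000000000000a000000000000000000000000000000000000000000000000000000000000000000000000000009000000000000000000000000080000000000000000000000000700000000000000000000000006000000000000000000000000000000000000000000000000000000000000000000000000000000000000000000000000000000000000000000000000000000000000000000000000000000000000000000000000000000000000000000000000000000000000000000000000000000000000000000000000000000000000000000000000000000000000000000000000000000000000000000000000000000000000000000000000000000000000005000000000000000000000000000000000000004000000000000000000000000000000000000003000000000000000000000000000000000000000000000000000000000000000000000000000000000000000000000000000000000000000000000000000000000000000000000000000000000000000000000000000000000000000000000000002000000000000000000000000000000000000001000000000000000000000000000000000000000)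
noncomputable def OL2_7 : Nat := (nat_lit 0x7300e401c4038006d00d801ac035005700ac015402a005100a0013c027004b0094012402400450088010c0210034806600c60150028804e009001180220042007800e801c00360036006000a800600060000)
noncomputable def AL2_8 : Nat := (nat_lit 0)
noncomputable def A42_8 : Nat := (nat_lit 0)
noncomputable def IX2_8 : Nat := (nat_lit 0)
noncomputable def OL2_8 : Nat := (nat_lit 0)
noncomputable def AL2_9 : Nat := (nat_lit 0)
noncomputable def A42_9 : Nat := (nat_lit 0)
noncomputable def IX2_9 : Nat := (nat_lit 0)
noncomputable def OL2_9 : Nat := (nat_lit 0)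
noncomputable def AL2_10 : Nat := (nat_lit 0x1fffffe00000001fffffffffffe002ab6ffffffc000155b60aadb)
noncomputable def A42_10 : Nat := (nat_lit 0xaa0aa000000000aa0aa0aa0aa00001241541540000009200049)
noncomputable def IX2_10 : Nat := (nat_lit 0x28000000000000000000000000270000000000000000000000002600000000000000000000000025000000000000000000000000000000000000000000000000000000000000000000000000000024000000000000000000000000230000000000000000000000002200000000000000000000000021000000000000000000000000000000000000000000000000000000000000000000000000000000000000000000000000000000000000000000000000000000000000000000000000000000000000000000000000000000000000000000000000000000000000000000000000000000000000000000000000000000000000000000000000000000000000000000000000000000000000000000000000000000000000000000000000000000000000000000000000000000000000000000000000000000000000000000000000000000000000000000000000000000000000000000000000000000000000000000000000000000000000200000000000000000000000001f0000000000000000000000001e0000000000000000000000001d0000000000000000000000000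0000000000000000000000000000000000000000000000000001c0000000000000000000000001b0000000000000000000000001a0000000000000000000000001900000000000000000000000000000000000000000000000000000000000000000000000000001800000000000000000000000017000000000000000000000000160000000000000000000000001500000000000000000000000000000000000000000000000000000000000000000000000000001400000000000000000000000013000000000000000000000000120000000000000000000000001100000000000000000000000000000000000000000000000000000000000000000000000000000000000000000000000000000000000000000000000000000000000000000000000000000000000000000000000000000000000000000000000000000000000000000000000000000000000000000000000000000000000000000000000000000001000000000000000000000000000000000000000f00000000000000000000000000000000000000e00000000000000000000000000000000000000000000000000000000000000000000000000000d0000000000000000000000000c0000000000000000000000000b0000000000000000000000000a0000000000000000000000000000000000000000000000000000000000000000000000000000090000000000000000000000000800000000000000000000000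00700000000000000000000000006000000000000000000000000000000000000000000000000000000000000000000000000000000000000000000000000000000000000000000000000000000000000000000000000000000000000000000000000000000000000000000000000000000000000000000000000000000000000000000000000000000000000000000000000000000000000000000000000000000000000000000000000000000000000000000000000000000000000005000000000000000000000000000000000000004000000000000000000000000000000000000003000000000000000000000000000000000000000000000000000000000000000000000000000000000000000000000000000000000000000000000000000000000000000000000000000000000000000000000000000000000000000000000000002000000000000000000000000000000000000001000000000000000000000000000000000000000)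
noncomputable def OL2_10 : Nat := (nat_lit 0x32c06480c7018a02fc05e80bb0172024c048808f011a021c0428083010201ec03c807700ea01bc036806b00d20150028804e009001180220042007800e801c00360036006000a800600060000)
noncomputable def AL2_11 : Nat := (nat_lit 0)
noncomputable def A42_11 : Nat := (nat_lit 0)
noncomputable def IX2_11 : Nat := (nat_lit 0)
noncomputable def OL2_11 : Nat := (nat_lit 0)
noncomputable def AL2_12 : Nat := (nat_lit 0)
noncomputable def A42_12 : Nat := (nat_lit 0)
noncomputable def IX2_12 : Nat := (nat_lit 0)
noncomputable def OL2_12 : Nat := (nat_lit 0)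
noncomputable def AL2_13 : Nat := (nat_lit 0x7ff800000007ffffffff800aadb)
noncomputable def A42_13 : Nat := (nat_lit 0x2a8000000002a82a82a8000049)
noncomputable def IX2_13 : Nat := (nat_lit 0x1200000000000000000000000011000000000000000000000000100000000000000000000000000f0000000000000000000000000000000000000000000000000000000000000000000000000000000000000000000000000000000000000000000000000000000000000000000000000000000000000000000000000000000000000000000000000000000000000000000000000000000000000000000000000000000000000000000000000000000000000000000000000000000000000000000000000000000000000000000000000000000000000000000000000000000000000000000000000000000000000000000000000000000000000000000000000000000000000000000000000000000000000000000000000000000000000e0000000000000000000000000d0000000000000000000000000c0000000000000000000000000b00000000000000000000000000000000000000000000000000000000000000000000000000000a000000000000000000000000090000000000000000000000000800000000000000000000000007000000000000000000000000000000000000000000000000000000000000000000000000000006000000000000000000000000050000000000000000000000000400000000000000000000000003000000000000000000000000000000000000000000000000000000000000000000000000000000000000000000000000000000000000000000000000000000000000000000000000000000000000000000000000000000000000000000000000000000000000000000000000000000000000000000000000000000000000000000000000000000002000000000000000000000000000000000000001000000000000000000000000000000000000000)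
noncomputable def OL2_13 : Nat := (nat_lit 0x6500c6018402f8039006e00d4019802d005600a40138021003e007400d800600060000)
noncomputable def AL2_14 : Nat := (nat_lit 0)
noncomputable def A42_14 : Nat := (nat_lit 0)
noncomputable def IX2_14 : Nat := (nat_lit 0)
noncomputable def OL2_14 : Nat := (nat_lit 0)
noncomputable def AL2_15 : Nat := (nat_lit 0)
noncomputable def A42_15 : Nat := (nat_lit 0)
noncomputable def IX2_15 : Nat := (nat_lit 0)
noncomputable def OL2_15 : Nat := (nat_lit 0)
noncomputable def AL2_16 : Nat := (nat_lit 0)
noncomputable def A42_16 : Nat := (nat_lit 0)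
noncomputable def IX2_16 : Nat := (nat_lit 0)
noncomputable def OL2_16 : Nat := (nat_lit 0)
noncomputable def AL2_17 : Nat := (nat_lit 0)
noncomputable def A42_17 : Nat := (nat_lit 0)
noncomputable def IX2_17 : Nat := (nat_lit 0)
noncomputable def OL2_17 : Nat := (nat_lit 0)
noncomputable def AL2_18 : Nat := (nat_lit 0)
noncomputable def A42_18 : Nat := (nat_lit 0)
noncomputable def IX2_18 : Nat := (nat_lit 0)
noncomputable def OL2_18 : Nat := (nat_lit 0)
noncomputable def AL2_19 : Nat := (nat_lit 0)
noncomputable def A42_19 : Nat := (nat_lit 0)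
noncomputable def IX2_19 : Nat := (nat_lit 0)
noncomputable def OL2_19 : Nat := (nat_lit 0)
noncomputable def AL2_20 : Nat := (nat_lit 0)
noncomputable def A42_20 : Nat := (nat_lit 0)
noncomputable def IX2_20 : Nat := (nat_lit 0)
noncomputable def OL2_20 : Nat := (nat_lit 0)
noncomputable def AL2_21 : Nat := (nat_lit 0)
noncomputable def A42_21 : Nat := (nat_lit 0)
noncomputable def IX2_21 : Nat := (nat_lit 0)
noncomputable def OL2_21 : Nat := (nat_lit 0)
noncomputable def AL2_22 : Nat := (nat_lit 0)
noncomputable def A42_22 : Nat := (nat_lit 0)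
noncomputable def IX2_22 : Nat := (nat_lit 0)
noncomputable def OL2_22 : Nat := (nat_lit 0)
noncomputable def AL2_23 : Nat := (nat_lit 0)
noncomputable def A42_23 : Nat := (nat_lit 0)
noncomputable def IX2_23 : Nat := (nat_lit 0)
noncomputable def OL2_23 : Nat := (nat_lit 0)
noncomputable def AL2_24 : Nat := (nat_lit 0)
noncomputable def A42_24 : Nat := (nat_lit 0)
noncomputable def IX2_24 : Nat := (nat_lit 0)
noncomputable def OL2_24 : Nat := (nat_lit 0)
noncomputable def AL2_25 : Nat := (nat_lit 0)
noncomputable def A42_25 : Nat := (nat_lit 0)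
noncomputable def IX2_25 : Nat := (nat_lit 0)
noncomputable def OL2_25 : Nat := (nat_lit 0)
noncomputable def AL2_26 : Nat := (nat_lit 0)
noncomputable def A42_26 : Nat := (nat_lit 0)
noncomputable def IX2_26 : Nat := (nat_lit 0)
noncomputable def OL2_26 : Nat := (nat_lit 0)
noncomputable def AL2_27 : Nat := (nat_lit 0)
noncomputable def A42_27 : Nat := (nat_lit 0)
noncomputable def IX2_27 : Nat := (nat_lit 0)
noncomputable def OL2_27 : Nat := (nat_lit 0)
noncomputable def AL2_28 : Nat := (nat_lit 0)
noncomputable def A42_28 : Nat := (nat_lit 0)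
noncomputable def IX2_28 : Nat := (nat_lit 0)
noncomputable def OL2_28 : Nat := (nat_lit 0)
noncomputable def AL2_29 : Nat := (nat_lit 0)
noncomputable def A42_29 : Nat := (nat_lit 0)
noncomputable def IX2_29 : Nat := (nat_lit 0)
noncomputable def OL2_29 : Nat := (nat_lit 0)
noncomputable def AL2_30 : Nat := (nat_lit 0)
noncomputable def A42_30 : Nat := (nat_lit 0)
noncomputable def IX2_30 : Nat := (nat_lit 0)
noncomputable def OL2_30 : Nat := (nat_lit 0)
noncomputable def AL2_31 : Nat := (nat_lit 0)
noncomputable def A42_31 : Nat := (nat_lit 0)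
noncomputable def IX2_31 : Nat := (nat_lit 0)
noncomputable def OL2_31 : Nat := (nat_lit 0)
noncomputable def AL2_32 : Nat := (nat_lit 0)
noncomputable def A42_32 : Nat := (nat_lit 0)
noncomputable def IX2_32 : Nat := (nat_lit 0)
noncomputable def OL2_32 : Nat := (nat_lit 0)
noncomputable def AL2_33 : Nat := (nat_lit 0)
noncomputable def A42_33 : Nat := (nat_lit 0)
noncomputable def IX2_33 : Nat := (nat_lit 0)
noncomputable def OL2_33 : Nat := (nat_lit 0)
noncomputable def AL2_34 : Nat := (nat_lit 0)
noncomputable def A42_34 : Nat := (nat_lit 0)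
noncomputable def IX2_34 : Nat := (nat_lit 0)
noncomputable def OL2_34 : Nat := (nat_lit 0)
noncomputable def AL2_35 : Nat := (nat_lit 0)
noncomputable def A42_35 : Nat := (nat_lit 0)
noncomputable def IX2_35 : Nat := (nat_lit 0)
noncomputable def OL2_35 : Nat := (nat_lit 0)
noncomputable def AL2_36 : Nat := (nat_lit 0)
noncomputable def A42_36 : Nat := (nat_lit 0)
noncomputable def IX2_36 : Nat := (nat_lit 0)
noncomputable def OL2_36 : Nat := (nat_lit 0)
noncomputable def AL2_37 : Nat := (nat_lit 0)
noncomputable def A42_37 : Nat := (nat_lit 0)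
noncomputable def IX2_37 : Nat := (nat_lit 0)
noncomputable def OL2_37 : Nat := (nat_lit 0)
noncomputable def TL2 : Tl := (Tl.cons (Tr.mk AL2_0 A42_0 IX2_0 OL2_0) (Tl.cons (Tr.mk AL2_1 A42_1 IX2_1 OL2_1) (Tl.cons (Tr.mk AL2_2 A42_2 IX2_2 OL2_2) (Tl.cons (Tr.mk AL2_3 A42_3 IX2_3 OL2_3) (Tl.cons (Tr.mk AL2_4 A42_4 IX2_4 OL2_4) (Tl.cons (Tr.mk AL2_5 A42_5 IX2_5 OL2_5) (Tl.cons (Tr.mk AL2_6 A42_6 IX2_6 OL2_6) (Tl.cons (Tr.mk AL2_7 A42_7 IX2_7 OL2_7) (Tl.cons (Tr.mk AL2_8 A42_8 IX2_8 OL2_8) (Tl.cons (Tr.mk AL2_9 A42_9 IX2_9 OL2_9) (Tl.cons (Tr.mk AL2_10 A42_10 IX2_10 OL2_10) (Tl.cons (Tr.mk AL2_11 A42_11 IX2_11 OL2_11) (Tl.cons (Tr.mk AL2_12 A42_12 IX2_12 OL2_12) (Tl.cons (Tr.mk AL2_13 A42_13 IX2_13 OL2_13) (Tl.cons (Tr.mk AL2_14 A42_14 IX2_14 OL2_14) (Tl.cons (Tr.mk AL2_15 A42_15 IX2_15 OL2_15) (Tl.cons (Tr.mk AL2_16 A42_16 IX2_16 OL2_16) (Tl.cons (Tr.mk AL2_17 A42_17 IX2_17 OL2_17) (Tl.cons (Tr.mk AL2_18 A42_18 IX2_18 OL2_18) (Tl.cons (Tr.mk AL2_19 A42_19 IX2_19 OL2_19) (Tl.cons (Tr.mk AL2_20 A42_20 IX2_20 OL2_20) (Tl.cons (Tr.mk AL2_21 A42_21 IX2_21 OL2_21) (Tl.cons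 (Tr.mk AL2_22 A42_22 IX2_22 OL2_22) (Tl.cons (Tr.mk AL2_23 A42_23 IX2_23 OL2_23) (Tl.cons (Tr.mk AL2_24 A42_24 IX2_24 OL2_24) (Tl.cons (Tr.mk AL2_25 A42_25 IX2_25 OL2_25) (Tl.cons (Tr.mk AL2_26 A42_26 IX2_26 OL2_26) (Tl.cons (Tr.mk AL2_27 A42_27 IX2_27 OL2_27) (Tl.cons (Tr.mk AL2_28 A42_28 IX2_28 OL2_28) (Tl.cons (Tr.mk AL2_29 A42_29 IX2_29 OL2_29) (Tl.cons (Tr.mk AL2_30 A42_30 IX2_30 OL2_30) (Tl.cons (Tr.mk AL2_31 A42_31 IX2_31 OL2_31) (Tl.cons (Tr.mk AL2_32 A42_32 IX2_32 OL2_32) (Tl.cons (Tr.mk AL2_33 A42_33 IX2_33 OL2_33) (Tl.cons (Tr.mk AL2_34 A42_34 IX2_34 OL2_34) (Tl.cons (Tr.mk AL2_35 A42_35 IX2_35 OL2_35) (Tl.cons (Tr.mk AL2_36 A42_36 IX2_36 OL2_36) (Tl.cons (Tr.mk AL2_37 A42_37 IX2_37 OL2_37) Tl.nil))))))))))))))))))))))))))))))))))))))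
noncomputable def ZL2_0 : Zl := (Zl.cons (nat_lit 0) (nat_lit 0) (nat_lit 0) (Zl.cons (nat_lit 0) (nat_lit 0) (nat_lit 3) (Zl.cons (nat_lit 0) (nat_lit 0) (nat_lit 0) (Zl.cons (nat_lit 0) (nat_lit 0) (nat_lit 0) (Zl.cons (nat_lit 11) (nat_lit 3) (nat_lit 6) (Zl.cons (nat_lit 0) (nat_lit 0) (nat_lit 0) (Zl.cons (nat_lit 0) (nat_lit 0) (nat_lit 0) (Zl.cons (nat_lit 14) (nat_lit 9) (nat_lit 6) (Zl.cons (nat_lit 0) (nat_lit 0) (nat_lit 0) (Zl.cons (nat_lit 0) (nat_lit 0) (nat_lit 0) (Zl.cons (nat_lit 14) (nat_lit 15) (nat_lit 3) (Zl.cons (nat_lit 0) (nat_lit 0) (nat_lit 0) (Zl.cons (nat_lit 0) (nat_lit 0) (nat_lit 0) (Zl.cons (nat_lit 0) (nat_lit 0) (nat_lit 0) (Zl.cons (nat_lit 0) (nat_lit 0) (nat_lit 0) (Zl.cons (nat_lit 0) (nat_lit 0) (nat_lit 0) (Zl.cons (nat_lit 0) (nat_lit 0) (nat_lit 0) (Zl.cons (nat_lit 0) (nat_lit 0) (nat_lit 0) (Zl.cons (nat_lit 0) (nat_lit 0) (nat_lit 0) (Zl.cons (nat_lit 0) (nat_lit 0) (nat_lit 0) (Zl.cons (nat_lit 0) (nat_lit 0) (nat_lit 0) (Zl.cons (nat_lit 0) (nat_lit 0) (nat_lit 0) (Zl.cons (nat_lit 0) (nat_lit 0) (nat_lit 0) (Zl.cons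 (nat_lit 0) (nat_lit 0) (nat_lit 0) (Zl.cons (nat_lit 0) (nat_lit 0) (nat_lit 0) (Zl.cons (nat_lit 0) (nat_lit 0) (nat_lit 0) (Zl.cons (nat_lit 0) (nat_lit 0) (nat_lit 0) (Zl.cons (nat_lit 0) (nat_lit 0) (nat_lit 0) (Zl.cons (nat_lit 0) (nat_lit 0) (nat_lit 0) (Zl.cons (nat_lit 0) (nat_lit 0) (nat_lit 0) (Zl.cons (nat_lit 0) (nat_lit 0) (nat_lit 0) (Zl.cons (nat_lit 0) (nat_lit 0) (nat_lit 0) (Zl.cons (nat_lit 0) (nat_lit 0) (nat_lit 0) (Zl.cons (nat_lit 0) (nat_lit 0) (nat_lit 0) (Zl.cons (nat_lit 0) (nat_lit 0) (nat_lit 0) (Zl.cons (nat_lit 0) (nat_lit 0) (nat_lit 0) (Zl.cons (nat_lit 0) (nat_lit 0) (nat_lit 0) (Zl.cons (nat_lit 0) (nat_lit 0) (nat_lit 0) Zl.nil))))))))))))))))))))))))))))))))))))))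
noncomputable def ZZ2 : ZZ := (ZZ.cons ZL2_0 ZZ.nil)

end Pool.Agent.NNr.R15_1_1_4
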