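import Pool.Agent.NNr.R15_1_1_4.D0
import Pool.Agent.NNr.R15_1_1_4.D1
import Pool.Agent.NNr.R15_1_1_4.D2
import Pool.Agent.NNe.Slots

set_option linter.all false
set_option maxRecDepth 1000000
namespace Pool.Agent.NNr.R15_1_1_4

open Pool.Agent.NNe

def tc0_35 : tiCov (nat_lit 1) (nat_lit 35) ZZ0 C0_35 = true := by decide +kernel
def tc0_36 : tiCov (nat_lit 1) (nat_lit 36) ZZ0 C0_36 = true := by decide +kernel
def tc0_37 : tiCov (nat_lit 1) (nat_lit 37) ZZ0 C0_37 = true := by decide +kernel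
def wf1_0 : wfC (nat_lit 57) (nat_lit 6) C1_0 = true := by decide +kernel
def rf1_0 : rfCk (nat_lit 58) (nat_lit 2) (nat_lit 57) (nat_lit 6) (nat_lit 9) (nat_lit 0) (nat_lit 0) TL1 CL0 CL1 = true := by decide +kernel
def st1_0_0 : starCk (nat_lit 57) (nat_lit 6) (nat_lit 1) (nat_lit 3) (nat_lit 54) (nat_lit 0) (nat_lit 256) C1_0 = true := by decide +kernel
def sc1_0 : stCov (nat_lit 2) (nat_lit 0) (Rl.cons (nat_lit 0) (nat_lit 54) Rl.nil) C1_0 = true := by decide +kernel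
def wf1_1 : wfC (nat_lit 57) (nat_lit 6) C1_1 = true := by decide +kernel
def rf1_1 : rfCk (nat_lit 58) (nat_lit 2) (nat_lit 57) (nat_lit 6) (nat_lit 9) (nat_lit 0) (nat_lit 1) TL1 CL0 CL1 = true := by decide +kernel
def st1_1_0 : starCk (nat_lit 57) (nat_lit 6) (nat_lit 1) (nat_lit 3) (nat_lit 21) (nat_lit 0) (nat_lit 16) C1_1 = true := by decide +kernel
def sc1_1 : stCov (nat_lit 1) (nat_lit 0) (Rl.cons (nat_lit 0) (nat_lit 21) Rl.nil) C1_1 = true := by decide +kernel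
def wf1_2 : wfC (nat_lit 57) (nat_lit 6) C1_2 = true := by decide +kernel
def rf1_2 : rfCk (nat_lit 58) (nat_lit 2) (nat_lit 57) (nat_lit 6) (nat_lit 9) (nat_lit 0) (nat_lit 2) TL1 CL0 CL1 = true := by decide +kernel
def st1_2_0 : starCk (nat_lit 57) (nat_lit 6) (nat_lit 1) (nat_lit 3) (nat_lit 4) (nat_lit 24) (nat_lit 256) C1_2 = true := by decide +kernel
def sc1_2 : stCov (nat_lit 2) (nat_lit 24) (Rl.cons (nat_lit 24) (nat_lit 4) Rl.nil) C1_2 = true := by decide +kernel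
def wf1_3 : wfC (nat_lit 57) (nat_lit 6) C1_3 = true := by decide +kernel
def rf1_3 : rfCk (nat_lit 58) (nat_lit 2) (nat_lit 57) (nat_lit 6) (nat_lit 9) (nat_lit 0) (nat_lit 3) TL1 CL0 CL1 = true := by decide +kernel
def st1_3_0 : starCk (nat_lit 57) (nat_lit 6) (nat_lit 1) (nat_lit 3) (nat_lit 3) (nat_lit 0) (nat_lit 16) C1_3 = true := by decide +kernel
def sc1_3 : stCov (nat_lit 1) (nat_lit 0) (Rl.cons (nat_lit 0) (nat_lit 3) Rl.nil) C1_3 = true := by decide +kernel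
def wf1_4 : wfC (nat_lit 57) (nat_lit 6) C1_4 = true := by decide +kernel
def rf1_4 : rfCk (nat_lit 58) (nat_lit 2) (nat_lit 57) (nat_lit 6) (nat_lit 9) (nat_lit 0) (nat_lit 4) TL1 CL0 CL1 = true := by decide +kernel
def st1_4_0 : starCk (nat_lit 57) (nat_lit 6) (nat_lit 1) (nat_lit 3) (nat_lit 30) (nat_lit 21) (nat_lit 1) C1_4 = true := by decide +kernel
def sc1_4 : stCov (nat_lit 0) (nat_lit 21) (Rl.cons (nat_lit 21) (nat_lit 30) Rl.nil) C1_4 = true := by decide +kernel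
def wf1_5 : wfC (nat_lit 57) (nat_lit 6) C1_5 = true := by decide +kernel
def rf1_5 : rfCk (nat_lit 58) (nat_lit 2) (nat_lit 57) (nat_lit 6) (nat_lit 9) (nat_lit 0) (nat_lit 5) TL1 CL0 CL1 = true := by decide +kernel
def st1_5_0 : starCk (nat_lit 57) (nat_lit 6) (nat_lit 1) (nat_lit 3) (nat_lit 8) (nat_lit 64) (nat_lit 256) C1_5 = true := by decide +kernel
def sc1_5 : stCov (nat_lit 2) (nat_lit 64) (Rl.cons (nat_lit 64) (nat_lit 8) Rl.nil) C1_5 = true := by decide +kernel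
def wf1_6 : wfC (nat_lit 57) (nat_lit 6) C1_6 = true := by decide +kernel
def rf1_6 : rfCk (nat_lit 58) (nat_lit 2) (nat_lit 57) (nat_lit 6) (nat_lit 9) (nat_lit 0) (nat_lit 6) TL1 CL0 CL1 = true := by decide +kernel
def st1_6_0 : starCk (nat_lit 57) (nat_lit 6) (nat_lit 1) (nat_lit 3) (nat_lit 1) (nat_lit 3) (nat_lit 1) C1_6 = true := by decide +kernel
def sc1_6 : stCov (nat_lit 0) (nat_lit 3) (Rl.cons (nat_lit 3) (nat_lit 1) Rl.nil) C1_6 = true := by decide +kernel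
def wf1_7 : wfC (nat_lit 57) (nat_lit 6) C1_7 = true := by decide +kernel
def rf1_7 : rfCk (nat_lit 58) (nat_lit 2) (nat_lit 57) (nat_lit 6) (nat_lit 9) (nat_lit 0) (nat_lit 7) TL1 CL0 CL1 = true := by decide +kernel
def st1_7_0 : starCk (nat_lit 57) (nat_lit 6) (nat_lit 1) (nat_lit 3) (nat_lit 36) (nat_lit 42) (nat_lit 1) C1_7 = true := by decide +kernel
def sc1_7 : stCov (nat_lit 0) (nat_lit 42) (Rl.cons (nat_lit 42) (nat_lit 36) Rl.nil) C1_7 = true := by decide +kernel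
def wf1_8 : wfC (nat_lit 57) (nat_lit 6) C1_8 = true := by decide +kernel
def rf1_8 : rfCk (nat_lit 58) (nat_lit 2) (nat_lit 57) (nat_lit 6) (nat_lit 9) (nat_lit 0) (nat_lit 8) TL1 CL0 CL1 = true := by decide +kernel
def st1_8_0 : starCk (nat_lit 57) (nat_lit 6) (nat_lit 1) (nat_lit 3) (nat_lit 8) (nat_lit 80) (nat_lit 256) C1_8 = true := by decide +kernel
def sc1_8 : stCov (nat_lit 2) (nat_lit 80) (Rl.cons (nat_lit 80) (nat_lit 8) Rl.nil) C1_8 = true := by decide +kernel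
def wf1_9 : wfC (nat_lit 57) (nat_lit 6) C1_9 = true := by decide +kernel
def rf1_9 : rfCk (nat_lit 58) (nat_lit 2) (nat_lit 57) (nat_lit 6) (nat_lit 9) (nat_lit 0) (nat_lit 9) TL1 CL0 CL1 = true := by decide +kernel
def st1_9_0 : starCk (nat_lit 57) (nat_lit 6) (nat_lit 1) (nat_lit 3) (nat_lit 2) (nat_lit 6) (nat_lit 1) C1_9 = true := by decide +kernel
def sc1_9 : stCov (nat_lit 0) (nat_lit 6) (Rl.cons (nat_lit 6) (nat_lit 2) Rl.nil) C1_9 = true := by decide +kernel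
def wf1_10 : wfC (nat_lit 57) (nat_lit 6) C1_10 = true := by decide +kernel
def rf1_10 : rfCk (nat_lit 58) (nat_lit 2) (nat_lit 57) (nat_lit 6) (nat_lit 9) (nat_lit 0) (nat_lit 10) TL1 CL0 CL1 = true := by decide +kernel
def st1_10_0 : starCk (nat_lit 57) (nat_lit 6) (nat_lit 1) (nat_lit 3) (nat_lit 21) (nat_lit 78) (nat_lit 16) C1_10 = true := by decide +kernel
def sc1_10 : stCov (nat_lit 1) (nat_lit 78) (Rl.cons (nat_lit 78) (nat_lit 21) Rl.nil) C1_10 = true := by decide +kernel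
def wf1_11 : wfC (nat_lit 57) (nat_lit 6) C1_11 = true := by decide +kernel
def rf1_11 : rfCk (nat_lit 58) (nat_lit 2) (nat_lit 57) (nat_lit 6) (nat_lit 9) (nat_lit 0) (nat_lit 11) TL1 CL0 CL1 = true := by decide +kernel
def st1_11_0 : starCk (nat_lit 57) (nat_lit 6) (nat_lit 1) (nat_lit 3) (nat_lit 8) (nat_lit 80) (nat_lit 256) C1_11 = true := by decide +kernel
def sc1_11 : stCov (nat_lit 2) (nat_lit 80) (Rl.cons (nat_lit 80) (nat_lit 8) Rl.nil) C1_11 = true := by decide +kernel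
def wf1_12 : wfC (nat_lit 57) (nat_lit 6) C1_12 = true := by decide +kernel
def rf1_12 : rfCk (nat_lit 58) (nat_lit 2) (nat_lit 57) (nat_lit 6) (nat_lit 9) (nat_lit 0) (nat_lit 12) TL1 CL0 CL1 = true := by decide +kernel
def st1_12_0 : starCk (nat_lit 57) (nat_lit 6) (nat_lit 1) (nat_lit 3) (nat_lit 2) (nat_lit 6) (nat_lit 1) C1_12 = true := by decide +kernel
def sc1_12 : stCov (nat_lit 0) (nat_lit 6) (Rl.cons (nat_lit 6) (nat_lit 2) Rl.nil) C1_12 = true := by decide +kernel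
def wf1_13 : wfC (nat_lit 57) (nat_lit 6) C1_13 = true := by decide +kernel
def rf1_13 : rfCk (nat_lit 58) (nat_lit 2) (nat_lit 57) (nat_lit 6) (nat_lit 9) (nat_lit 0) (nat_lit 13) TL1 CL0 CL1 = true := by decide +kernel
def st1_13_0 : starCk (nat_lit 57) (nat_lit 6) (nat_lit 1) (nat_lit 3) (nat_lit 44) (nat_lit 51) (nat_lit 256) C1_13 = true := by decide +kernel
def sc1_13 : stCov (nat_lit 2) (nat_lit 51) (Rl.cons (nat_lit 51) (nat_lit 44) Rl.nil) C1_13 = true := by decide +kernel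
def wf1_14 : wfC (nat_lit 57) (nat_lit 6) C1_14 = true := by decide +kernel
def rf1_14 : rfCk (nat_lit 58) (nat_lit 2) (nat_lit 57) (nat_lit 6) (nat_lit 9) (nat_lit 0) (nat_lit 14) TL1 CL0 CL1 = true := by decide +kernel
def st1_14_0 : starCk (nat_lit 57) (nat_lit 6) (nat_lit 1) (nat_lit 3) (nat_lit 8) (nat_lit 80) (nat_lit 256) C1_14 = true := by decide +kernel
def sc1_14 : stCov (nat_lit 2) (nat_lit 80) (Rl.cons (nat_lit 80) (nat_lit 8) Rl.nil) C1_14 = true := by decide +kernel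
def wf1_15 : wfC (nat_lit 57) (nat_lit 6) C1_15 = true := by decide +kernel
def rf1_15 : rfCk (nat_lit 58) (nat_lit 2) (nat_lit 57) (nat_lit 6) (nat_lit 9) (nat_lit 0) (nat_lit 15) TL1 CL0 CL1 = true := by decide +kernel
def st1_15_0 : starCk (nat_lit 57) (nat_lit 6) (nat_lit 1) (nat_lit 3) (nat_lit 2) (nat_lit 6) (nat_lit 1) C1_15 = true := by decide +kernel
def sc1_15 : stCov (nat_lit 0) (nat_lit 6) (Rl.cons (nat_lit 6) (nat_lit 2) Rl.nil) C1_15 = true := by decide +kernel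
def wf1_16 : wfC (nat_lit 57) (nat_lit 6) C1_16 = true := by decide +kernel
def rf1_16 : rfCk (nat_lit 58) (nat_lit 2) (nat_lit 57) (nat_lit 6) (nat_lit 9) (nat_lit 0) (nat_lit 16) TL1 CL0 CL1 = true := by decide +kernel
def st1_16_0 : starCk (nat_lit 57) (nat_lit 6) (nat_lit 1) (nat_lit 3) (nat_lit 8) (nat_lit 80) (nat_lit 256) C1_16 = true := by decide +kernel
def sc1_16 : stCov (nat_lit 2) (nat_lit 80) (Rl.cons (nat_lit 80) (nat_lit 8) Rl.nil) C1_16 = true := by decide +kernel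
def wf1_17 : wfC (nat_lit 57) (nat_lit 6) C1_17 = true := by decide +kernel
def rf1_17 : rfCk (nat_lit 58) (nat_lit 2) (nat_lit 57) (nat_lit 6) (nat_lit 9) (nat_lit 0) (nat_lit 17) TL1 CL0 CL1 = true := by decide +kernel
def st1_17_0 : starCk (nat_lit 57) (nat_lit 6) (nat_lit 1) (nat_lit 3) (nat_lit 2) (nat_lit 6) (nat_lit 1) C1_17 = true := by decide +kernel
def sc1_17 : stCov (nat_lit 0) (nat_lit 6) (Rl.cons (nat_lit 6) (nat_lit 2) Rl.nil) C1_17 = true := by decide +kernel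
def wf1_18 : wfC (nat_lit 57) (nat_lit 6) C1_18 = true := by decide +kernel
def rf1_18 : rfCk (nat_lit 58) (nat_lit 2) (nat_lit 57) (nat_lit 6) (nat_lit 9) (nat_lit 0) (nat_lit 18) TL1 CL0 CL1 = true := by decide +kernel
def st1_18_0 : starCk (nat_lit 57) (nat_lit 6) (nat_lit 1) (nat_lit 3) (nat_lit 8) (nat_lit 80) (nat_lit 256) C1_18 = true := by decide +kernel
def sc1_18 : stCov (nat_lit 2) (nat_lit 80) (Rl.cons (nat_lit 80) (nat_lit 8) Rl.nil) C1_18 = true := by decide +kernel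
def wf1_19 : wfC (nat_lit 57) (nat_lit 6) C1_19 = true := by decide +kernel
def rf1_19 : rfCk (nat_lit 58) (nat_lit 2) (nat_lit 57) (nat_lit 6) (nat_lit 9) (nat_lit 0) (nat_lit 19) TL1 CL0 CL1 = true := by decide +kernel
def st1_19_0 : starCk (nat_lit 57) (nat_lit 6) (nat_lit 1) (nat_lit 3) (nat_lit 2) (nat_lit 6) (nat_lit 1) C1_19 = true := by decide +kernel
def sc1_19 : stCov (nat_lit 0) (nat_lit 6) (Rl.cons (nat_lit 6) (nat_lit 2) Rl.nil) C1_19 = true := by decide +kernel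
def wf1_20 : wfC (nat_lit 57) (nat_lit 6) C1_20 = true := by decide +kernel
def rf1_20 : rfCk (nat_lit 58) (nat_lit 2) (nat_lit 57) (nat_lit 6) (nat_lit 9) (nat_lit 0) (nat_lit 20) TL1 CL0 CL1 = true := by decide +kernel
def st1_20_0 : starCk (nat_lit 57) (nat_lit 6) (nat_lit 1) (nat_lit 3) (nat_lit 8) (nat_lit 64) (nat_lit 256) C1_20 = true := by decide +kernel
def sc1_20 : stCov (nat_lit 2) (nat_lit 64) (Rl.cons (nat_lit 64) (nat_lit 8) Rl.nil) C1_20 = true := by decide +kernel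
def wf1_21 : wfC (nat_lit 57) (nat_lit 6) C1_21 = true := by decide +kernel
def rf1_21 : rfCk (nat_lit 58) (nat_lit 2) (nat_lit 57) (nat_lit 6) (nat_lit 9) (nat_lit 0) (nat_lit 21) TL1 CL0 CL1 = true := by decide +kernel
def st1_21_0 : starCk (nat_lit 57) (nat_lit 6) (nat_lit 1) (nat_lit 3) (nat_lit 2) (nat_lit 6) (nat_lit 1) C1_21 = true := by decide +kernel
def sc1_21 : stCov (nat_lit 0) (nat_lit 6) (Rl.cons (nat_lit 6) (nat_lit 2) Rl.nil) C1_21 = true := by decide +kernel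
def wf1_22 : wfC (nat_lit 57) (nat_lit 6) C1_22 = true := by decide +kernel
def rf1_22 : rfCk (nat_lit 58) (nat_lit 2) (nat_lit 57) (nat_lit 6) (nat_lit 9) (nat_lit 0) (nat_lit 22) TL1 CL0 CL1 = true := by decide +kernel
def st1_22_0 : starCk (nat_lit 57) (nat_lit 6) (nat_lit 1) (nat_lit 3) (nat_lit 4) (nat_lit 24) (nat_lit 256) C1_22 = true := by decide +kernel
def sc1_22 : stCov (nat_lit 2) (nat_lit 24) (Rl.cons (nat_lit 24) (nat_lit 4) Rl.nil) C1_22 = true := by decide +kernel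
def wf1_23 : wfC (nat_lit 57) (nat_lit 6) C1_23 = true := by decide +kernel
def rf1_23 : rfCk (nat_lit 58) (nat_lit 2) (nat_lit 57) (nat_lit 6) (nat_lit 9) (nat_lit 0) (nat_lit 23) TL1 CL0 CL1 = true := by decide +kernel
def st1_23_0 : starCk (nat_lit 57) (nat_lit 6) (nat_lit 1) (nat_lit 3) (nat_lit 2) (nat_lit 6) (nat_lit 1) C1_23 = true := by decide +kernel
def sc1_23 : stCov (nat_lit 0) (nat_lit 6) (Rl.cons (nat_lit 6) (nat_lit 2) Rl.nil) C1_23 = true := by decide +kernel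
def wf1_24 : wfC (nat_lit 57) (nat_lit 6) C1_24 = true := by decide +kernel
def rf1_24 : rfCk (nat_lit 58) (nat_lit 2) (nat_lit 57) (nat_lit 6) (nat_lit 9) (nat_lit 0) (nat_lit 24) TL1 CL0 CL1 = true := by decide +kernel
def st1_24_0 : starCk (nat_lit 57) (nat_lit 6) (nat_lit 1) (nat_lit 3) (nat_lit 2) (nat_lit 6) (nat_lit 1) C1_24 = true := by decide +kernel
def sc1_24 : stCov (nat_lit 0) (nat_lit 6) (Rl.cons (nat_lit 6) (nat_lit 2) Rl.nil) C1_24 = true := by decide +kernel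
def wf1_25 : wfC (nat_lit 57) (nat_lit 6) C1_25 = true := by decide +kernel
def rf1_25 : rfCk (nat_lit 58) (nat_lit 2) (nat_lit 57) (nat_lit 6) (nat_lit 9) (nat_lit 0) (nat_lit 25) TL1 CL0 CL1 = true := by decide +kernel
def st1_25_0 : starCk (nat_lit 57) (nat_lit 6) (nat_lit 1) (nat_lit 3) (nat_lit 6) (nat_lit 8) (nat_lit 16) C1_25 = true := by decide +kernel
def sc1_25 : stCov (nat_lit 1) (nat_lit 8) (Rl.cons (nat_lit 8) (nat_lit 6) Rl.nil) C1_25 = true := by decide +kernel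
def wf1_26 : wfC (nat_lit 57) (nat_lit 6) C1_26 = true := by decide +kernel
def rf1_26 : rfCk (nat_lit 58) (nat_lit 2) (nat_lit 57) (nat_lit 6) (nat_lit 9) (nat_lit 0) (nat_lit 26) TL1 CL0 CL1 = true := by decide +kernel
def st1_26_0 : starCk (nat_lit 57) (nat_lit 6) (nat_lit 1) (nat_lit 3) (nat_lit 3) (nat_lit 8) (nat_lit 16) C1_26 = true := by decide +kernel
def sc1_26 : stCov (nat_lit 1) (nat_lit 8) (Rl.cons (nat_lit 8) (nat_lit 3) Rl.nil) C1_26 = true := by decide +kernel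
def wf1_27 : wfC (nat_lit 57) (nat_lit 6) C1_27 = true := by decide +kernel
def rf1_27 : rfCk (nat_lit 58) (nat_lit 2) (nat_lit 57) (nat_lit 6) (nat_lit 9) (nat_lit 0) (nat_lit 27) TL1 CL0 CL1 = true := by decide +kernel
def st1_27_0 : starCk (nat_lit 57) (nat_lit 6) (nat_lit 1) (nat_lit 3) (nat_lit 1) (nat_lit 3) (nat_lit 1) C1_27 = true := by decide +kernel
def sc1_27 : stCov (nat_lit 0) (nat_lit 3) (Rl.cons (nat_lit 3) (nat_lit 1) Rl.nil) C1_27 = true := by decide +kernel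
def wf1_28 : wfC (nat_lit 57) (nat_lit 6) C1_28 = true := by decide +kernel
def rf1_28 : rfCk (nat_lit 58) (nat_lit 2) (nat_lit 57) (nat_lit 6) (nat_lit 9) (nat_lit 0) (nat_lit 28) TL1 CL0 CL1 = true := by decide +kernel
def sc1_28 : stCov (nat_lit 2) (nat_lit 0) Rl.nil C1_28 = true := by decide +kernel
def wf1_29 : wfC (nat_lit 57) (nat_lit 6) C1_29 = true := by decide +kernel
def rf1_29 : rfCk (nat_lit 58) (nat_lit 2) (nat_lit 57) (nat_lit 6) (nat_lit 9) (nat_lit 0) (nat_lit 29) TL1 CL0 CL1 = true := by decide +kernel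
def st1_29_0 : starCk (nat_lit 57) (nat_lit 6) (nat_lit 1) (nat_lit 3) (nat_lit 16) (nat_lit 22) (nat_lit 4096) C1_29 = true := by decide +kernel
def sc1_29 : stCov (nat_lit 3) (nat_lit 22) (Rl.cons (nat_lit 22) (nat_lit 16) Rl.nil) C1_29 = true := by decide +kernel
def wf1_30 : wfC (nat_lit 57) (nat_lit 6) C1_30 = true := by decide +kernel
def rf1_30 : rfCk (nat_lit 58) (nat_lit 2) (nat_lit 57) (nat_lit 6) (nat_lit 9) (nat_lit 0) (nat_lit 30) TL1 CL0 CL1 = true := by decide +kernel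
def sc1_30 : stCov (nat_lit 2) (nat_lit 0) Rl.nil C1_30 = true := by decide +kernel
def wf1_31 : wfC (nat_lit 57) (nat_lit 6) C1_31 = true := by decide +kernel
def rf1_31 : rfCk (nat_lit 58) (nat_lit 2) (nat_lit 57) (nat_lit 6) (nat_lit 9) (nat_lit 0) (nat_lit 31) TL1 CL0 CL1 = true := by decide +kernel
def st1_31_0 : starCk (nat_lit 57) (nat_lit 6) (nat_lit 1) (nat_lit 3) (nat_lit 6) (nat_lit 16) (nat_lit 1) C1_31 = true := by decide +kernel
def sc1_31 : stCov (nat_lit 0) (nat_lit 16) (Rl.cons (nat_lit 16) (nat_lit 6) Rl.nil) C1_31 = true := by decide +kernel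
def wf1_32 : wfC (nat_lit 57) (nat_lit 6) C1_32 = true := by decide +kernel
def rf1_32 : rfCk (nat_lit 58) (nat_lit 2) (nat_lit 57) (nat_lit 6) (nat_lit 9) (nat_lit 0) (nat_lit 32) TL1 CL0 CL1 = true := by decide +kernel
def sc1_32 : stCov (nat_lit 2) (nat_lit 0) Rl.nil C1_32 = true := by decide +kernel
def wf1_33 : wfC (nat_lit 57) (nat_lit 6) C1_33 = true := by decide +kernel
def rf1_33 : rfCk (nat_lit 58) (nat_lit 2) (nat_lit 57) (nat_lit 6) (nat_lit 9) (nat_lit 0) (nat_lit 33) TL1 CL0 CL1 = true := by decide +kernel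
def st1_33_0 : starCk (nat_lit 57) (nat_lit 6) (nat_lit 1) (nat_lit 3) (nat_lit 12) (nat_lit 16) (nat_lit 1) C1_33 = true := by decide +kernel
def sc1_33 : stCov (nat_lit 0) (nat_lit 16) (Rl.cons (nat_lit 16) (nat_lit 12) Rl.nil) C1_33 = true := by decide +kernel
def wf1_34 : wfC (nat_lit 57) (nat_lit 6) C1_34 = true := by decide +kernel
def rf1_34 : rfCk (nat_lit 58) (nat_lit 2) (nat_lit 57) (nat_lit 6) (nat_lit 9) (nat_lit 0) (nat_lit 34) TL1 CL0 CL1 = true := by decide +kernel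
def st1_34_0 : starCk (nat_lit 57) (nat_lit 6) (nat_lit 1) (nat_lit 3) (nat_lit 32) (nat_lit 56) (nat_lit 4096) C1_34 = true := by decide +kernel
def sc1_34 : stCov (nat_lit 3) (nat_lit 56) (Rl.cons (nat_lit 56) (nat_lit 32) Rl.nil) C1_34 = true := by decide +kernel
def wf1_35 : wfC (nat_lit 57) (nat_lit 6) C1_35 = true := by decide +kernel
def rf1_35 : rfCk (nat_lit 58) (nat_lit 2) (nat_lit 57) (nat_lit 6) (nat_lit 9) (nat_lit 0) (nat_lit 35) TL1 CL0 CL1 = true := by decide +kernel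
def st1_35_0 : starCk (nat_lit 57) (nat_lit 6) (nat_lit 1) (nat_lit 3) (nat_lit 16) (nat_lit 28) (nat_lit 16) C1_35 = true := by decide +kernel
def sc1_35 : stCov (nat_lit 1) (nat_lit 28) (Rl.cons (nat_lit 28) (nat_lit 16) Rl.nil) C1_35 = true := by decide +kernel
def wf1_36 : wfC (nat_lit 57) (nat_lit 6) C1_36 = true := by decide +kernel
def rf1_36 : rfCk (nat_lit 58) (nat_lit 2) (nat_lit 57) (nat_lit 6) (nat_lit 9) (nat_lit 0) (nat_lit 36) TL1 CL0 CL1 = true := by decide +kernel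
def st1_36_0 : starCk (nat_lit 57) (nat_lit 6) (nat_lit 1) (nat_lit 3) (nat_lit 16) (nat_lit 28) (nat_lit 16) C1_36 = true := by decide +kernel
def sc1_36 : stCov (nat_lit 1) (nat_lit 28) (Rl.cons (nat_lit 28) (nat_lit 16) Rl.nil) C1_36 = true := by decide +kernel
def wf1_37 : wfC (nat_lit 57) (nat_lit 6) C1_37 = true := by decide +kernel
def rf1_37 : rfCk (nat_lit 58) (nat_lit 2) (nat_lit 57) (nat_lit 6) (nat_lit 9) (nat_lit 0) (nat_lit 37) TL1 CL0 CL1 = true := by decide +kernel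
def st1_37_0 : starCk (nat_lit 57) (nat_lit 6) (nat_lit 1) (nat_lit 3) (nat_lit 16) (nat_lit 22) (nat_lit 4096) C1_37 = true := by decide +kernel
def sc1_37 : stCov (nat_lit 3) (nat_lit 22) (Rl.cons (nat_lit 22) (nat_lit 16) Rl.nil) C1_37 = true := by decide +kernel
def ti1_0 : tileCk (nat_lit 57) (nat_lit 6) (nat_lit 2) (nat_lit 2) (nat_lit 460) (nat_lit 15) (nat_lit 38) ZL1_0 CL1 = true := by decide +kernel
def zl1_0 : zlOK (nat_lit 460) ZL1_0 = true := by decide +kernel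
def tc1_0 : tiCov (nat_lit 1) (nat_lit 0) ZZ1 C1_0 = true := by decide +kernel
def tc1_1 : tiCov (nat_lit 1) (nat_lit 1) ZZ1 C1_1 = true := by decide +kernel
def tc1_2 : tiCov (nat_lit 1) (nat_lit 2) ZZ1 C1_2 = true := by decide +kernel
def tc1_3 : tiCov (nat_lit 1) (nat_lit 3) ZZ1 C1_3 = true := by decide +kernel
def tc1_4 : tiCov (nat_lit 1) (nat_lit 4) ZZ1 C1_4 = true := by decide +kernel
def tc1_5 : tiCov (nat_lit 1) (nat_lit 5) ZZ1 C1_5 = true := by decide +kernel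
def tc1_6 : tiCov (nat_lit 1) (nat_lit 6) ZZ1 C1_6 = true := by decide +kernel
def tc1_7 : tiCov (nat_lit 1) (nat_lit 7) ZZ1 C1_7 = true := by decide +kernel
def tc1_8 : tiCov (nat_lit 1) (nat_lit 8) ZZ1 C1_8 = true := by decide +kernel
def tc1_9 : tiCov (nat_lit 1) (nat_lit 9) ZZ1 C1_9 = true := by decide +kernel
def tc1_10 : tiCov (nat_lit 1) (nat_lit 10) ZZ1 C1_10 = true := by decide +kernel
def tc1_11 : tiCov (nat_lit 1) (nat_lit 11) ZZ1 C1_11 = true := by decide +kernel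
def tc1_12 : tiCov (nat_lit 1) (nat_lit 12) ZZ1 C1_12 = true := by decide +kernel
def tc1_13 : tiCov (nat_lit 1) (nat_lit 13) ZZ1 C1_13 = true := by decide +kernel
def tc1_14 : tiCov (nat_lit 1) (nat_lit 14) ZZ1 C1_14 = true := by decide +kernel
def tc1_15 : tiCov (nat_lit 1) (nat_lit 15) ZZ1 C1_15 = true := by decide +kernel
def tc1_16 : tiCov (nat_lit 1) (nat_lit 16) ZZ1 C1_16 = true := by decide +kernel
def tc1_17 : tiCov (nat_lit 1) (nat_lit 17) ZZ1 C1_17 = true := by decide +kernel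
def tc1_18 : tiCov (nat_lit 1) (nat_lit 18) ZZ1 C1_18 = true := by decide +kernel
def tc1_19 : tiCov (nat_lit 1) (nat_lit 19) ZZ1 C1_19 = true := by decide +kernel
def tc1_20 : tiCov (nat_lit 1) (nat_lit 20) ZZ1 C1_20 = true := by decide +kernel
def tc1_21 : tiCov (nat_lit 1) (nat_lit 21) ZZ1 C1_21 = true := by decide +kernel
def tc1_22 : tiCov (nat_lit 1) (nat_lit 22) ZZ1 C1_22 = true := by decide +kernel
def tc1_23 : tiCov (nat_lit 1) (nat_lit 23) ZZ1 C1_23 = true := by decide +kernel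
def tc1_24 : tiCov (nat_lit 1) (nat_lit 24) ZZ1 C1_24 = true := by decide +kernel
def tc1_25 : tiCov (nat_lit 1) (nat_lit 25) ZZ1 C1_25 = true := by decide +kernel
def tc1_26 : tiCov (nat_lit 1) (nat_lit 26) ZZ1 C1_26 = true := by decide +kernel
def tc1_27 : tiCov (nat_lit 1) (nat_lit 27) ZZ1 C1_27 = true := by decide +kernel
def tc1_28 : tiCov (nat_lit 1) (nat_lit 28) ZZ1 C1_28 = true := by decide +kernel
def tc1_29 : tiCov (nat_lit 1) (nat_lit 29) ZZ1 C1_29 = true := by decide +kernel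
def tc1_30 : tiCov (nat_lit 1) (nat_lit 30) ZZ1 C1_30 = true := by decide +kernel
def tc1_31 : tiCov (nat_lit 1) (nat_lit 31) ZZ1 C1_31 = true := by decide +kernel
def tc1_32 : tiCov (nat_lit 1) (nat_lit 32) ZZ1 C1_32 = true := by decide +kernel
def tc1_33 : tiCov (nat_lit 1) (nat_lit 33) ZZ1 C1_33 = true := by decide +kernel
def tc1_34 : tiCov (nat_lit 1) (nat_lit 34) ZZ1 C1_34 = true := by decide +kernel
def tc1_35 : tiCov (nat_lit 1) (nat_lit 35) ZZ1 C1_35 = true := by decide +kernel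
def tc1_36 : tiCov (nat_lit 1) (nat_lit 36) ZZ1 C1_36 = true := by decide +kernel
def tc1_37 : tiCov (nat_lit 1) (nat_lit 37) ZZ1 C1_37 = true := by decide +kernel
def wf2_1 : wfC (nat_lit 9) (nat_lit 2) C2_1 = true := by decide +kernel
def rf2_1 : rfCk (nat_lit 57) (nat_lit 6) (nat_lit 9) (nat_lit 2) (nat_lit 9) (nat_lit 0) (nat_lit 1) TL2 CL1 CL2 = true := by decide +kernel
def wf2_4 : wfC (nat_lit 9) (nat_lit 2) C2_4 = true := by decide +kernel
def rf2_4 : rfCk (nat_lit 57) (nat_lit 6) (nat_lit 9) (nat_lit 2) (nat_lit 9) (nat_lit 0) (nat_lit 4) TL2 CL1 CL2 = true := by decide +kernel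
def wf2_7 : wfC (nat_lit 9) (nat_lit 2) C2_7 = true := by decide +kernel
def rf2_7 : rfCk (nat_lit 57) (nat_lit 6) (nat_lit 9) (nat_lit 2) (nat_lit 9) (nat_lit 0) (nat_lit 7) TL2 CL1 CL2 = true := by decide +kernel
def wf2_10 : wfC (nat_lit 9) (nat_lit 2) C2_10 = true := by decide +kernel
def rf2_10 : rfCk (nat_lit 57) (nat_lit 6) (nat_lit 9) (nat_lit 2) (nat_lit 9) (nat_lit 0) (nat_lit 10) TL2 CL1 CL2 = true := by decide +kernel
def wf2_13 : wfC (nat_lit 9) (nat_lit 2) C2_13 = true := by decide +kernel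
def rf2_13 : rfCk (nat_lit 57) (nat_lit 6) (nat_lit 9) (nat_lit 2) (nat_lit 9) (nat_lit 0) (nat_lit 13) TL2 CL1 CL2 = true := by decide +kernel
def ti2_0 : tileCk (nat_lit 9) (nat_lit 2) (nat_lit 1) (nat_lit 1) (nat_lit 18) (nat_lit 15) (nat_lit 38) ZL2_0 CL2 = true := by decide +kernel
def zl2_0 : zlOK (nat_lit 18) ZL2_0 = true := by decide +kernel
def tc2_1 : tiCov (nat_lit 1) (nat_lit 1) ZZ2 C2_1 = true := by decide +kernel
def tc2_4 : tiCov (nat_lit 1) (nat_lit 4) ZZ2 C2_4 = true := by decide +kernel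
def tc2_7 : tiCov (nat_lit 1) (nat_lit 7) ZZ2 C2_7 = true := by decide +kernel
def tc2_10 : tiCov (nat_lit 1) (nat_lit 10) ZZ2 C2_10 = true := by decide +kernel
def tc2_13 : tiCov (nat_lit 1) (nat_lit 13) ZZ2 C2_13 = true := by decide +kernel
def de2_1 : deadCk (nat_lit 9) (nat_lit 2) C2_1 = true := by decide +kernel
def de2_4 : deadCk (nat_lit 9) (nat_lit 2) C2_4 = true := by decide +kernel
def de2_7 : deadCk (nat_lit 9) (nat_lit 2) C2_7 = true := by decide +kernel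
def de2_10 : deadCk (nat_lit 9) (nat_lit 2) C2_10 = true := by decide +kernel
def de2_13 : deadCk (nat_lit 9) (nat_lit 2) C2_13 = true := by decide +kernel
def sc0_0 : stCov (nat_lit 2) (nat_lit 0) (Rl.cons (nat_lit 0) (nat_lit 108) Rl.nil) C0_0 = true := by decide +kernel
def sc0_1 : stCov (nat_lit 1) (nat_lit 0) (Rl.cons (nat_lit 0) (nat_lit 235) Rl.nil) C0_1 = true := by decide +kernel
def sc0_2 : stCov (nat_lit 1) (nat_lit 0) (Rl.cons (nat_lit 0) (nat_lit 116) Rl.nil) C0_2 = true := by decide +kernel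
def sc0_3 : stCov (nat_lit 1) (nat_lit 0) (Rl.cons (nat_lit 0) (nat_lit 16) Rl.nil) C0_3 = true := by decide +kernel
def sc0_4 : stCov (nat_lit 0) (nat_lit 0) (Rl.cons (nat_lit 0) (nat_lit 401) Rl.nil) C0_4 = true := by decide +kernel
def sc0_5 : stCov (nat_lit 0) (nat_lit 0) (Rl.cons (nat_lit 0) (nat_lit 260) Rl.nil) C0_5 = true := by decide +kernel
def sc0_6 : stCov (nat_lit 0) (nat_lit 0) (Rl.cons (nat_lit 0) (nat_lit 48) Rl.nil) C0_6 = true := by decide +kernel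
def sc0_7 : stCov (nat_lit 0) (nat_lit 0) (Rl.cons (nat_lit 0) (nat_lit 440) Rl.nil) C0_7 = true := by decide +kernel
def sc0_8 : stCov (nat_lit 0) (nat_lit 0) (Rl.cons (nat_lit 0) (nat_lit 288) Rl.nil) C0_8 = true := by decide +kernel
def sc0_9 : stCov (nat_lit 0) (nat_lit 0) (Rl.cons (nat_lit 0) (nat_lit 64) Rl.nil) C0_9 = true := by decide +kernel
def sc0_10 : stCov (nat_lit 0) (nat_lit 0) (Rl.cons (nat_lit 0) (nat_lit 401) Rl.nil) C0_10 = true := by decide +kernel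
def sc0_11 : stCov (nat_lit 0) (nat_lit 0) (Rl.cons (nat_lit 0) (nat_lit 288) Rl.nil) C0_11 = true := by decide +kernel
def sc0_12 : stCov (nat_lit 0) (nat_lit 0) (Rl.cons (nat_lit 0) (nat_lit 64) Rl.nil) C0_12 = true := by decide +kernel
def sc0_13 : stCov (nat_lit 0) (nat_lit 0) (Rl.cons (nat_lit 0) (nat_lit 235) Rl.nil) C0_13 = true := by decide +kernel
def sc0_14 : stCov (nat_lit 0) (nat_lit 0) (Rl.cons (nat_lit 0) (nat_lit 288) Rl.nil) C0_14 = true := by decide +kernel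
def sc0_15 : stCov (nat_lit 0) (nat_lit 0) (Rl.cons (nat_lit 0) (nat_lit 64) Rl.nil) C0_15 = true := by decide +kernel
def sc0_16 : stCov (nat_lit 0) (nat_lit 0) (Rl.cons (nat_lit 0) (nat_lit 288) Rl.nil) C0_16 = true := by decide +kernel
def sc0_17 : stCov (nat_lit 0) (nat_lit 0) (Rl.cons (nat_lit 0) (nat_lit 64) Rl.nil) C0_17 = true := by decide +kernel
def sc0_18 : stCov (nat_lit 0) (nat_lit 0) (Rl.cons (nat_lit 0) (nat_lit 288) Rl.nil) C0_18 = true := by decide +kernel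
def sc0_19 : stCov (nat_lit 0) (nat_lit 0) (Rl.cons (nat_lit 0) (nat_lit 64) Rl.nil) C0_19 = true := by decide +kernel
def sc0_20 : stCov (nat_lit 0) (nat_lit 0) (Rl.cons (nat_lit 0) (nat_lit 260) Rl.nil) C0_20 = true := by decide +kernel
def sc0_21 : stCov (nat_lit 0) (nat_lit 0) (Rl.cons (nat_lit 0) (nat_lit 64) Rl.nil) C0_21 = true := by decide +kernel
def sc0_22 : stCov (nat_lit 0) (nat_lit 0) (Rl.cons (nat_lit 0) (nat_lit 116) Rl.nil) C0_22 = true := by decide +kernel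
def sc0_23 : stCov (nat_lit 0) (nat_lit 0) (Rl.cons (nat_lit 0) (nat_lit 64) Rl.nil) C0_23 = true := by decide +kernel
def sc0_24 : stCov (nat_lit 0) (nat_lit 0) (Rl.cons (nat_lit 0) (nat_lit 64) Rl.nil) C0_24 = true := by decide +kernel
def sc0_25 : stCov (nat_lit 0) (nat_lit 0) (Rl.cons (nat_lit 0) (nat_lit 64) Rl.nil) C0_25 = true := by decide +kernel
def sc0_26 : stCov (nat_lit 0) (nat_lit 0) (Rl.cons (nat_lit 0) (nat_lit 48) Rl.nil) C0_26 = true := by decide +kernel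
def sc0_27 : stCov (nat_lit 0) (nat_lit 0) (Rl.cons (nat_lit 0) (nat_lit 16) Rl.nil) C0_27 = true := by decide +kernel
def sc0_28 : stCov (nat_lit 1) (nat_lit 0) (Rl.cons (nat_lit 0) (nat_lit 741) Rl.nil) C0_28 = true := by decide +kernel
def sc0_29 : stCov (nat_lit 1) (nat_lit 0) (Rl.cons (nat_lit 0) (nat_lit 242) Rl.nil) C0_29 = true := by decide +kernel
def sc0_30 : stCov (nat_lit 0) (nat_lit 0) (Rl.cons (nat_lit 0) (nat_lit 1082) Rl.nil) C0_30 = true := by decide +kernel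
def sc0_31 : stCov (nat_lit 0) (nat_lit 0) (Rl.cons (nat_lit 0) (nat_lit 512) Rl.nil) C0_31 = true := by decide +kernel
def sc0_32 : stCov (nat_lit 0) (nat_lit 0) (Rl.cons (nat_lit 0) (nat_lit 741) Rl.nil) C0_32 = true := by decide +kernel
def sc0_33 : stCov (nat_lit 0) (nat_lit 0) (Rl.cons (nat_lit 0) (nat_lit 540) Rl.nil) C0_33 = true := by decide +kernel
def sc0_34 : stCov (nat_lit 0) (nat_lit 0) (Rl.cons (nat_lit 0) (nat_lit 540) Rl.nil) C0_34 = true := by decide +kernel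
def sc0_35 : stCov (nat_lit 0) (nat_lit 0) (Rl.cons (nat_lit 0) (nat_lit 540) Rl.nil) C0_35 = true := by decide +kernel
def sc0_36 : stCov (nat_lit 0) (nat_lit 0) (Rl.cons (nat_lit 0) (nat_lit 512) Rl.nil) C0_36 = true := by decide +kernel
def sc0_37 : stCov (nat_lit 0) (nat_lit 0) (Rl.cons (nat_lit 0) (nat_lit 242) Rl.nil) C0_37 = true := by decide +kernel
def wf2_0 : wfC (nat_lit 9) (nat_lit 2) C2_0 = true := by decide +kernel
def wf2_2 : wfC (nat_lit 9) (nat_lit 2) C2_2 = true := by decide +kernel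
def wf2_3 : wfC (nat_lit 9) (nat_lit 2) C2_3 = true := by decide +kernel
def wf2_5 : wfC (nat_lit 9) (nat_lit 2) C2_5 = true := by decide +kernel
def wf2_6 : wfC (nat_lit 9) (nat_lit 2) C2_6 = true := by decide +kernel
def wf2_8 : wfC (nat_lit 9) (nat_lit 2) C2_8 = true := by decide +kernel
def wf2_9 : wfC (nat_lit 9) (nat_lit 2) C2_9 = true := by decide +kernel
def wf2_11 : wfC (nat_lit 9) (nat_lit 2) C2_11 = true := by decide +kernel
def wf2_12 : wfC (nat_lit 9) (nat_lit 2) C2_12 = true := by decide +kernel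
def wf2_14 : wfC (nat_lit 9) (nat_lit 2) C2_14 = true := by decide +kernel
def wf2_15 : wfC (nat_lit 9) (nat_lit 2) C2_15 = true := by decide +kernel
def wf2_16 : wfC (nat_lit 9) (nat_lit 2) C2_16 = true := by decide +kernel
def wf2_17 : wfC (nat_lit 9) (nat_lit 2) C2_17 = true := by decide +kernel
def wf2_18 : wfC (nat_lit 9) (nat_lit 2) C2_18 = true := by decide +kernel
def wf2_19 : wfC (nat_lit 9) (nat_lit 2) C2_19 = true := by decide +kernel
def wf2_20 : wfC (nat_lit 9) (nat_lit 2) C2_20 = true := by decide +kernel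
def wf2_21 : wfC (nat_lit 9) (nat_lit 2) C2_21 = true := by decide +kernel
def wf2_22 : wfC (nat_lit 9) (nat_lit 2) C2_22 = true := by decide +kernel
def wf2_23 : wfC (nat_lit 9) (nat_lit 2) C2_23 = true := by decide +kernel
def wf2_24 : wfC (nat_lit 9) (nat_lit 2) C2_24 = true := by decide +kernel
def wf2_25 : wfC (nat_lit 9) (nat_lit 2) C2_25 = true := by decide +kernel
def wf2_26 : wfC (nat_lit 9) (nat_lit 2) C2_26 = true := by decide +kernel
def wf2_27 : wfC (nat_lit 9) (nat_lit 2) C2_27 = true := by decide +kernel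
def wf2_28 : wfC (nat_lit 9) (nat_lit 2) C2_28 = true := by decide +kernel
def wf2_29 : wfC (nat_lit 9) (nat_lit 2) C2_29 = true := by decide +kernel
def wf2_30 : wfC (nat_lit 9) (nat_lit 2) C2_30 = true := by decide +kernel
def wf2_31 : wfC (nat_lit 9) (nat_lit 2) C2_31 = true := by decide +kernel
def wf2_32 : wfC (nat_lit 9) (nat_lit 2) C2_32 = true := by decide +kernel
def wf2_33 : wfC (nat_lit 9) (nat_lit 2) C2_33 = true := by decide +kernel
def wf2_34 : wfC (nat_lit 9) (nat_lit 2) C2_34 = true := by decide +kernel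
def wf2_35 : wfC (nat_lit 9) (nat_lit 2) C2_35 = true := by decide +kernel
def wf2_36 : wfC (nat_lit 9) (nat_lit 2) C2_36 = true := by decide +kernel
def wf2_37 : wfC (nat_lit 9) (nat_lit 2) C2_37 = true := by decide +kernel
def rf2_0 : rfCk (nat_lit 57) (nat_lit 6) (nat_lit 9) (nat_lit 2) (nat_lit 9) (nat_lit 0) (nat_lit 0) TL2 CL1 CL2 = true := by decide +kernel
def rf2_2 : rfCk (nat_lit 57) (nat_lit 6) (nat_lit 9) (nat_lit 2) (nat_lit 9) (nat_lit 0) (nat_lit 2) TL2 CL1 CL2 = true := by decide +kernel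
def rf2_3 : rfCk (nat_lit 57) (nat_lit 6) (nat_lit 9) (nat_lit 2) (nat_lit 9) (nat_lit 0) (nat_lit 3) TL2 CL1 CL2 = true := by decide +kernel
def rf2_5 : rfCk (nat_lit 57) (nat_lit 6) (nat_lit 9) (nat_lit 2) (nat_lit 9) (nat_lit 0) (nat_lit 5) TL2 CL1 CL2 = true := by decide +kernel
def rf2_6 : rfCk (nat_lit 57) (nat_lit 6) (nat_lit 9) (nat_lit 2) (nat_lit 9) (nat_lit 0) (nat_lit 6) TL2 CL1 CL2 = true := by decide +kernel
def rf2_8 : rfCk (nat_lit 57) (nat_lit 6) (nat_lit 9) (nat_lit 2) (nat_lit 9) (nat_lit 0) (nat_lit 8) TL2 CL1 CL2 = true := by decide +kernel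
def rf2_9 : rfCk (nat_lit 57) (nat_lit 6) (nat_lit 9) (nat_lit 2) (nat_lit 9) (nat_lit 0) (nat_lit 9) TL2 CL1 CL2 = true := by decide +kernel
def rf2_11 : rfCk (nat_lit 57) (nat_lit 6) (nat_lit 9) (nat_lit 2) (nat_lit 9) (nat_lit 0) (nat_lit 11) TL2 CL1 CL2 = true := by decide +kernel
def rf2_12 : rfCk (nat_lit 57) (nat_lit 6) (nat_lit 9) (nat_lit 2) (nat_lit 9) (nat_lit 0) (nat_lit 12) TL2 CL1 CL2 = true := by decide +kernel
def rf2_14 : rfCk (nat_lit 57) (nat_lit 6) (nat_lit 9) (nat_lit 2) (nat_lit 9) (nat_lit 0) (nat_lit 14) TL2 CL1 CL2 = true := by decide +kernel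
def rf2_15 : rfCk (nat_lit 57) (nat_lit 6) (nat_lit 9) (nat_lit 2) (nat_lit 9) (nat_lit 0) (nat_lit 15) TL2 CL1 CL2 = true := by decide +kernel
def rf2_16 : rfCk (nat_lit 57) (nat_lit 6) (nat_lit 9) (nat_lit 2) (nat_lit 9) (nat_lit 0) (nat_lit 16) TL2 CL1 CL2 = true := by decide +kernel
def rf2_17 : rfCk (nat_lit 57) (nat_lit 6) (nat_lit 9) (nat_lit 2) (nat_lit 9) (nat_lit 0) (nat_lit 17) TL2 CL1 CL2 = true := by decide +kernel
def rf2_18 : rfCk (nat_lit 57) (nat_lit 6) (nat_lit 9) (nat_lit 2) (nat_lit 9) (nat_lit 0) (nat_lit 18) TL2 CL1 CL2 = true := by decide +kernel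
def rf2_19 : rfCk (nat_lit 57) (nat_lit 6) (nat_lit 9) (nat_lit 2) (nat_lit 9) (nat_lit 0) (nat_lit 19) TL2 CL1 CL2 = true := by decide +kernel
def rf2_20 : rfCk (nat_lit 57) (nat_lit 6) (nat_lit 9) (nat_lit 2) (nat_lit 9) (nat_lit 0) (nat_lit 20) TL2 CL1 CL2 = true := by decide +kernel
def rf2_21 : rfCk (nat_lit 57) (nat_lit 6) (nat_lit 9) (nat_lit 2) (nat_lit 9) (nat_lit 0) (nat_lit 21) TL2 CL1 CL2 = true := by decide +kernel
def rf2_22 : rfCk (nat_lit 57) (nat_lit 6) (nat_lit 9) (nat_lit 2) (nat_lit 9) (nat_lit 0) (nat_lit 22) TL2 CL1 CL2 = true := by decide +kernel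
def rf2_23 : rfCk (nat_lit 57) (nat_lit 6) (nat_lit 9) (nat_lit 2) (nat_lit 9) (nat_lit 0) (nat_lit 23) TL2 CL1 CL2 = true := by decide +kernel
def rf2_24 : rfCk (nat_lit 57) (nat_lit 6) (nat_lit 9) (nat_lit 2) (nat_lit 9) (nat_lit 0) (nat_lit 24) TL2 CL1 CL2 = true := by decide +kernel
def rf2_25 : rfCk (nat_lit 57) (nat_lit 6) (nat_lit 9) (nat_lit 2) (nat_lit 9) (nat_lit 0) (nat_lit 25) TL2 CL1 CL2 = true := by decide +kernel
def rf2_26 : rfCk (nat_lit 57) (nat_lit 6) (nat_lit 9) (nat_lit 2) (nat_lit 9) (nat_lit 0) (nat_lit 26) TL2 CL1 CL2 = true := by decide +kernel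
def rf2_27 : rfCk (nat_lit 57) (nat_lit 6) (nat_lit 9) (nat_lit 2) (nat_lit 9) (nat_lit 0) (nat_lit 27) TL2 CL1 CL2 = true := by decide +kernel
def rf2_28 : rfCk (nat_lit 57) (nat_lit 6) (nat_lit 9) (nat_lit 2) (nat_lit 9) (nat_lit 0) (nat_lit 28) TL2 CL1 CL2 = true := by decide +kernel
def rf2_29 : rfCk (nat_lit 57) (nat_lit 6) (nat_lit 9) (nat_lit 2) (nat_lit 9) (nat_lit 0) (nat_lit 29) TL2 CL1 CL2 = true := by decide +kernel
def rf2_30 : rfCk (nat_lit 57) (nat_lit 6) (nat_lit 9) (nat_lit 2) (nat_lit 9) (nat_lit 0) (nat_lit 30) TL2 CL1 CL2 = true := by decide +kernel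
def rf2_31 : rfCk (nat_lit 57) (nat_lit 6) (nat_lit 9) (nat_lit 2) (nat_lit 9) (nat_lit 0) (nat_lit 31) TL2 CL1 CL2 = true := by decide +kernel
def rf2_32 : rfCk (nat_lit 57) (nat_lit 6) (nat_lit 9) (nat_lit 2) (nat_lit 9) (nat_lit 0) (nat_lit 32) TL2 CL1 CL2 = true := by decide +kernel
def rf2_33 : rfCk (nat_lit 57) (nat_lit 6) (nat_lit 9) (nat_lit 2) (nat_lit 9) (nat_lit 0) (nat_lit 33) TL2 CL1 CL2 = true := by decide +kernel
def rf2_34 : rfCk (nat_lit 57) (nat_lit 6) (nat_lit 9) (nat_lit 2) (nat_lit 9) (nat_lit 0) (nat_lit 34) TL2 CL1 CL2 = true := by decide +kernel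
def rf2_35 : rfCk (nat_lit 57) (nat_lit 6) (nat_lit 9) (nat_lit 2) (nat_lit 9) (nat_lit 0) (nat_lit 35) TL2 CL1 CL2 = true := by decide +kernel
def rf2_36 : rfCk (nat_lit 57) (nat_lit 6) (nat_lit 9) (nat_lit 2) (nat_lit 9) (nat_lit 0) (nat_lit 36) TL2 CL1 CL2 = true := by decide +kernel
def rf2_37 : rfCk (nat_lit 57) (nat_lit 6) (nat_lit 9) (nat_lit 2) (nat_lit 9) (nat_lit 0) (nat_lit 37) TL2 CL1 CL2 = true := by decide +kernel
def sc2_0 : stCov (nat_lit 2) (nat_lit 0) Rl.nil C2_0 = true := by decide +kernel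
def sc2_1 : stCov (nat_lit 1) (nat_lit 0) (Rl.cons (nat_lit 0) (nat_lit 19) Rl.nil) C2_1 = true := by decide +kernel
def sc2_2 : stCov (nat_lit 1) (nat_lit 0) Rl.nil C2_2 = true := by decide +kernel
def sc2_3 : stCov (nat_lit 1) (nat_lit 0) Rl.nil C2_3 = true := by decide +kernel
def sc2_4 : stCov (nat_lit 0) (nat_lit 0) (Rl.cons (nat_lit 0) (nat_lit 41) Rl.nil) C2_4 = true := by decide +kernel
def sc2_5 : stCov (nat_lit 0) (nat_lit 0) Rl.nil C2_5 = true := by decide +kernel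
def sc2_6 : stCov (nat_lit 0) (nat_lit 0) Rl.nil C2_6 = true := by decide +kernel
def sc2_7 : stCov (nat_lit 0) (nat_lit 0) (Rl.cons (nat_lit 0) (nat_lit 44) Rl.nil) C2_7 = true := by decide +kernel
def sc2_8 : stCov (nat_lit 0) (nat_lit 0) Rl.nil C2_8 = true := by decide +kernel
def sc2_9 : stCov (nat_lit 0) (nat_lit 0) Rl.nil C2_9 = true := by decide +kernel
def sc2_10 : stCov (nat_lit 0) (nat_lit 0) (Rl.cons (nat_lit 0) (nat_lit 41) Rl.nil) C2_10 = true := by decide +kernel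
def sc2_11 : stCov (nat_lit 0) (nat_lit 0) Rl.nil C2_11 = true := by decide +kernel
def sc2_12 : stCov (nat_lit 0) (nat_lit 0) Rl.nil C2_12 = true := by decide +kernel
def sc2_13 : stCov (nat_lit 0) (nat_lit 0) (Rl.cons (nat_lit 0) (nat_lit 19) Rl.nil) C2_13 = true := by decide +kernel
def sc2_14 : stCov (nat_lit 0) (nat_lit 0) Rl.nil C2_14 = true := by decide +kernel
def sc2_15 : stCov (nat_lit 0) (nat_lit 0) Rl.nil C2_15 = true := by decide +kernel
def sc2_16 : stCov (nat_lit 0) (nat_lit 0) Rl.nil C2_16 = true := by decide +kernel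
def sc2_17 : stCov (nat_lit 0) (nat_lit 0) Rl.nil C2_17 = true := by decide +kernel
def sc2_18 : stCov (nat_lit 0) (nat_lit 0) Rl.nil C2_18 = true := by decide +kernel
def sc2_19 : stCov (nat_lit 0) (nat_lit 0) Rl.nil C2_19 = true := by decide +kernel
def sc2_20 : stCov (nat_lit 0) (nat_lit 0) Rl.nil C2_20 = true := by decide +kernel
def sc2_21 : stCov (nat_lit 0) (nat_lit 0) Rl.nil C2_21 = true := by decide +kernel
def sc2_22 : stCov (nat_lit 0) (nat_lit 0) Rl.nil C2_22 = true := by decide +kernel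
def sc2_23 : stCov (nat_lit 0) (nat_lit 0) Rl.nil C2_23 = true := by decide +kernel
def sc2_24 : stCov (nat_lit 0) (nat_lit 0) Rl.nil C2_24 = true := by decide +kernel
def sc2_25 : stCov (nat_lit 0) (nat_lit 0) Rl.nil C2_25 = true := by decide +kernel
def sc2_26 : stCov (nat_lit 0) (nat_lit 0) Rl.nil C2_26 = true := by decide +kernel
def sc2_27 : stCov (nat_lit 0) (nat_lit 0) Rl.nil C2_27 = true := by decide +kernel
def sc2_28 : stCov (nat_lit 1) (nat_lit 0) Rl.nil C2_28 = true := by decide +kernel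
def sc2_29 : stCov (nat_lit 1) (nat_lit 0) Rl.nil C2_29 = true := by decide +kernel
def sc2_30 : stCov (nat_lit 0) (nat_lit 0) Rl.nil C2_30 = true := by decide +kernel
def sc2_31 : stCov (nat_lit 0) (nat_lit 0) Rl.nil C2_31 = true := by decide +kernel
def sc2_32 : stCov (nat_lit 0) (nat_lit 0) Rl.nil C2_32 = true := by decide +kernel
def sc2_33 : stCov (nat_lit 0) (nat_lit 0) Rl.nil C2_33 = true := by decide +kernel
def sc2_34 : stCov (nat_lit 0) (nat_lit 0) Rl.nil C2_34 = true := by decide +kernel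
def sc2_35 : stCov (nat_lit 0) (nat_lit 0) Rl.nil C2_35 = true := by decide +kernel
def sc2_36 : stCov (nat_lit 0) (nat_lit 0) Rl.nil C2_36 = true := by decide +kernel
def sc2_37 : stCov (nat_lit 0) (nat_lit 0) Rl.nil C2_37 = true := by decide +kernel
def tc2_0 : tiCov (nat_lit 1) (nat_lit 0) ZZ2 C2_0 = true := by decide +kernel
def tc2_2 : tiCov (nat_lit 1) (nat_lit 2) ZZ2 C2_2 = true := by decide +kernel
def tc2_3 : tiCov (nat_lit 1) (nat_lit 3) ZZ2 C2_3 = true := by decide +kernel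
def tc2_5 : tiCov (nat_lit 1) (nat_lit 5) ZZ2 C2_5 = true := by decide +kernel
def tc2_6 : tiCov (nat_lit 1) (nat_lit 6) ZZ2 C2_6 = true := by decide +kernel
def tc2_8 : tiCov (nat_lit 1) (nat_lit 8) ZZ2 C2_8 = true := by decide +kernel
def tc2_9 : tiCov (nat_lit 1) (nat_lit 9) ZZ2 C2_9 = true := by decide +kernel
def tc2_11 : tiCov (nat_lit 1) (nat_lit 11) ZZ2 C2_11 = true := by decide +kernel
def tc2_12 : tiCov (nat_lit 1) (nat_lit 12) ZZ2 C2_12 = true := by decide +kernel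
def tc2_14 : tiCov (nat_lit 1) (nat_lit 14) ZZ2 C2_14 = true := by decide +kernel
def tc2_15 : tiCov (nat_lit 1) (nat_lit 15) ZZ2 C2_15 = true := by decide +kernel
def tc2_16 : tiCov (nat_lit 1) (nat_lit 16) ZZ2 C2_16 = true := by decide +kernel
def tc2_17 : tiCov (nat_lit 1) (nat_lit 17) ZZ2 C2_17 = true := by decide +kernel
def tc2_18 : tiCov (nat_lit 1) (nat_lit 18) ZZ2 C2_18 = true := by decide +kernel
def tc2_19 : tiCov (nat_lit 1) (nat_lit 19) ZZ2 C2_19 = true := by decide +kernel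
def tc2_20 : tiCov (nat_lit 1) (nat_lit 20) ZZ2 C2_20 = true := by decide +kernel
def tc2_21 : tiCov (nat_lit 1) (nat_lit 21) ZZ2 C2_21 = true := by decide +kernel
def tc2_22 : tiCov (nat_lit 1) (nat_lit 22) ZZ2 C2_22 = true := by decide +kernel
def tc2_23 : tiCov (nat_lit 1) (nat_lit 23) ZZ2 C2_23 = true := by decide +kernel
def tc2_24 : tiCov (nat_lit 1) (nat_lit 24) ZZ2 C2_24 = true := by decide +kernel
def tc2_25 : tiCov (nat_lit 1) (nat_lit 25) ZZ2 C2_25 = true := by decide +kernel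
def tc2_26 : tiCov (nat_lit 1) (nat_lit 26) ZZ2 C2_26 = true := by decide +kernel
def tc2_27 : tiCov (nat_lit 1) (nat_lit 27) ZZ2 C2_27 = true := by decide +kernel
def tc2_28 : tiCov (nat_lit 1) (nat_lit 28) ZZ2 C2_28 = true := by decide +kernel
def tc2_29 : tiCov (nat_lit 1) (nat_lit 29) ZZ2 C2_29 = true := by decide +kernel
def tc2_30 : tiCov (nat_lit 1) (nat_lit 30) ZZ2 C2_30 = true := by decide +kernel
def tc2_31 : tiCov (nat_lit 1) (nat_lit 31) ZZ2 C2_31 = true := by decide +kernel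
def tc2_32 : tiCov (nat_lit 1) (nat_lit 32) ZZ2 C2_32 = true := by decide +kernel
def tc2_33 : tiCov (nat_lit 1) (nat_lit 33) ZZ2 C2_33 = true := by decide +kernel
def tc2_34 : tiCov (nat_lit 1) (nat_lit 34) ZZ2 C2_34 = true := by decide +kernel
def tc2_35 : tiCov (nat_lit 1) (nat_lit 35) ZZ2 C2_35 = true := by decide +kernel
def tc2_36 : tiCov (nat_lit 1) (nat_lit 36) ZZ2 C2_36 = true := by decide +kernel
def tc2_37 : tiCov (nat_lit 1) (nat_lit 37) ZZ2 C2_37 = true := by decide +kernel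
def de2_0 : deadCk (nat_lit 9) (nat_lit 2) C2_0 = true := by decide +kernel
def de2_2 : deadCk (nat_lit 9) (nat_lit 2) C2_2 = true := by decide +kernel
def de2_3 : deadCk (nat_lit 9) (nat_lit 2) C2_3 = true := by decide +kernel
def de2_5 : deadCk (nat_lit 9) (nat_lit 2) C2_5 = true := by decide +kernel
def de2_6 : deadCk (nat_lit 9) (nat_lit 2) C2_6 = true := by decide +kernel
def de2_8 : deadCk (nat_lit 9) (nat_lit 2) C2_8 = true := by decide +kernel
def de2_9 : deadCk (nat_lit 9) (nat_lit 2) C2_9 = true := by decide +kernel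
def de2_11 : deadCk (nat_lit 9) (nat_lit 2) C2_11 = true := by decide +kernel
def de2_12 : deadCk (nat_lit 9) (nat_lit 2) C2_12 = true := by decide +kernel
def de2_14 : deadCk (nat_lit 9) (nat_lit 2) C2_14 = true := by decide +kernel
def de2_15 : deadCk (nat_lit 9) (nat_lit 2) C2_15 = true := by decide +kernel
def de2_16 : deadCk (nat_lit 9) (nat_lit 2) C2_16 = true := by decide +kernel
def de2_17 : deadCk (nat_lit 9) (nat_lit 2) C2_17 = true := by decide +kernel
def de2_18 : deadCk (nat_lit 9) (nat_lit 2) C2_18 = true := by decide +kernel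
def de2_19 : deadCk (nat_lit 9) (nat_lit 2) C2_19 = true := by decide +kernel
def de2_20 : deadCk (nat_lit 9) (nat_lit 2) C2_20 = true := by decide +kernel
def de2_21 : deadCk (nat_lit 9) (nat_lit 2) C2_21 = true := by decide +kernel
def de2_22 : deadCk (nat_lit 9) (nat_lit 2) C2_22 = true := by decide +kernel
def de2_23 : deadCk (nat_lit 9) (nat_lit 2) C2_23 = true := by decide +kernel
def de2_24 : deadCk (nat_lit 9) (nat_lit 2) C2_24 = true := by decide +kernel
def de2_25 : deadCk (nat_lit 9) (nat_lit 2) C2_25 = true := by decide +kernel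
def de2_26 : deadCk (nat_lit 9) (nat_lit 2) C2_26 = true := by decide +kernel
def de2_27 : deadCk (nat_lit 9) (nat_lit 2) C2_27 = true := by decide +kernel
def de2_28 : deadCk (nat_lit 9) (nat_lit 2) C2_28 = true := by decide +kernel
def de2_29 : deadCk (nat_lit 9) (nat_lit 2) C2_29 = true := by decide +kernel
def de2_30 : deadCk (nat_lit 9) (nat_lit 2) C2_30 = true := by decide +kernel
def de2_31 : deadCk (nat_lit 9) (nat_lit 2) C2_31 = true := by decide +kernel
def de2_32 : deadCk (nat_lit 9) (nat_lit 2) C2_32 = true := by decide +kernel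
def de2_33 : deadCk (nat_lit 9) (nat_lit 2) C2_33 = true := by decide +kernel
def de2_34 : deadCk (nat_lit 9) (nat_lit 2) C2_34 = true := by decide +kernel
def de2_35 : deadCk (nat_lit 9) (nat_lit 2) C2_35 = true := by decide +kernel
def de2_36 : deadCk (nat_lit 9) (nat_lit 2) C2_36 = true := by decide +kernel
def de2_37 : deadCk (nat_lit 9) (nat_lit 2) C2_37 = true := by decide +kernel

end Pool.Agent.NNr.R15_1_1_4
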